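import Pool.Agent.R614.PT.Zero

/-!
# Residue fields of NIP, `NIP_n` and NTP2 fields
-/

set_option autoImplicit false

namespace Pool.Agent.R614.PT

open Pool.Agent.W882.Nip3 NNReal
open Pool.Agent.Results.MP_3554b5_lc.UnramifiedNorms

/-- among `N` incomparable valuations of `κ` there is a tame one -/
theorem few_residue (K : Type) [Field K] [FirstOrder.Ring.CompatibleRing K]
    (hK : NIPField K ∨ (∃ n, NIPnField n K) ∨ NTP2Field K) {ℓ : ℕ} (hℓ : ℓ.Prime) :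
    ∃ N, ∀ (κ : Type) [Field κ], IsResidue K κ → Few κ ℓ N := by
  obtain ⟨N, hN⟩ := (Pool.Agent.Results.MP_3554b5_lc.UnramifiedNorms.result K hK).1 ℓ
  refine ⟨N, ?_⟩
  rintro κ _ ⟨K', _, _, hKK', O, π, hπ⟩ w hw
  obtain ⟨i, hi⟩ := Pool.Agent.Y562.NN.tame_of_residue ℓ N K' (hN K' hKK').1 O κ π hπ w hw
  exact ⟨i, (hi ℓ hℓ.one_le le_rfl).1⟩

end Pool.Agent.R614.PT
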