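import Pool.Agent.W882.Nip3.Defs

/-!
# Definitions
-/

set_option autoImplicit false

namespace Pool.Agent.R614.PT

open NNReal

/-- The field `R` has a separable extension of degree `d`. -/
def SepExt (R : Type) [Field R] (d : ℕ) : Prop :=
  ∃ (L : Type) (_ : Field L) (_ : Algebra R L), Algebra.IsSeparable R L ∧ Module.finrank R L = d

/-- Every finite extension of `R` has a separable extension of degree `d`. -/
def SepExtAll (R : Type) [Field R] (d : ℕ) : Prop :=
  ∀ (R' : Type) [Field R'] (f : R →+* R'), f.Finite → SepExt R' d

/-- The powers of `ℓ` which divide the degrees of the finite subextensions of `κ / k` are bounded. -/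
def BoundedPart (ℓ : ℕ) (k κ : Type) [Field k] [Field κ] [Algebra k κ] : Prop :=
  ∃ M : ℕ, ∀ L : IntermediateField k κ, FiniteDimensional k L → ¬ ℓ ^ M ∣ Module.finrank k L

/-- No element of `κ` has a degree over `k` which is divisible by `ℓ`. -/
def PrimeToDegrees (ℓ : ℕ) (k κ : Type) [Field k] [Field κ] [Algebra k κ] : Prop :=
  ∀ x : κ, ¬ ℓ ∣ (minpoly k x).natDegree

/-- The value group of `v` is `d`-divisible. -/
def Divisible {k : Type} [Field k] (v : Valuation k ℝ≥0) (d : ℕ) : Prop :=
  ∀ a : k, ∃ c : k, v a = v c ^ d

/-- The valuations are pairwise incomparable. -/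
def Incomparable {k : Type} [Field k] {N : ℕ} (u : Fin N → Valuation k ℝ≥0) : Prop :=
  Pairwise fun i j => ∃ z, u i z < 1 ∧ 1 < u j z

/-- The residue field of `v`. -/
abbrev Residue {k : Type} [Field k] (v : Valuation k ℝ≥0) : Type :=
  IsLocalRing.ResidueField v.valuationSubring

/-- `κ` is the residue field of a valuation ring `O` of a field `K'` which is elementarily
equivalent to `K`. Here `K' = K` and `O = K'` are allowed. -/
def IsResidue (K : Type) [Field K] [FirstOrder.Ring.CompatibleRing K] (κ : Type) [Field κ] : Prop :=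
  ∃ (K' : Type) (_ : Field K') (_ : FirstOrder.Ring.CompatibleRing K'),
    FirstOrder.Language.ring.ElementarilyEquivalent K K' ∧
    ∃ (O : ValuationSubring K') (π : O →+* κ), Function.Surjective π

end Pool.Agent.R614.PT
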