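import Pool.Agent.TH686.NF.Compl

/-!
# Degrees of residues
-/

set_option autoImplicit false
set_option linter.style.haveILetI false
set_option linter.unusedSectionVars false

namespace Pool.Agent.R614.PT

open Polynomial NNReal Pool.Agent.TH686.NF

section dg

variable {A B D : Type} [Field A] [Field B] [Field D] (f : A →+* B)

/-- the degree of `b` over `A` -/
noncomputable def dg (b : B) : ℕ := letI := f.toAlgebra; (minpoly A b).natDegree

variable {f}

theorem dg_of_irr {b : B} {p : A[X]} (hp : Irreducible p) (h : p.eval₂ f b = 0) :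
    dg f b = p.natDegree := by
  letI := f.toAlgebra
  have h1 := minpoly.eq_of_irreducible hp (show aeval b p = 0 from h)
  unfold dg
  rw [← h1, natDegree_mul_C (inv_ne_zero (leadingCoeff_ne_zero.2 hp.ne_zero))]

theorem dg_le {b : B} {p : A[X]} (hp : p ≠ 0) (h : p.eval₂ f b = 0) : dg f b ≤ p.natDegree := by
  letI := f.toAlgebra
  exact natDegree_le_of_dvd (minpoly.dvd A b (show aeval b p = 0 from h)) hp

theorem exists_irr {b : B} {p : A[X]} (hp : p ≠ 0) (h : p.eval₂ f b = 0) :
    ∃ q : A[X], Irreducible q ∧ q.Monic ∧ q.eval₂ f b = 0 ∧ dg f b = q.natDegree ∧ q ∣ p := by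
  letI := f.toAlgebra
  have hint : IsIntegral A b := isAlgebraic_iff_isIntegral.1 ⟨p, hp, h⟩
  exact ⟨minpoly A b, minpoly.irreducible hint, minpoly.monic hint, minpoly.aeval A b, rfl,
    minpoly.dvd A b (show aeval b p = 0 from h)⟩

theorem dg_tower (g : B →+* D) {d : D} {p : A[X]} (hp : p ≠ 0)
    (h : p.eval₂ (g.comp f) d = 0) : dg g d ≤ dg (g.comp f) d := by
  obtain ⟨q, hq1, hq2, hq3, hq4, -⟩ := exists_irr hp h
  rw [hq4, ← natDegree_map f]
  refine dg_le (Polynomial.map_ne_zero hq1.ne_zero) ?_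
  rw [eval₂_map]
  exact hq3

/-- all prime factors have a degree divisible by `m` -/
theorem dvd_natDegree {m : ℕ} {g : A[X]} (hg : g ≠ 0)
    (h : ∀ p : A[X], Irreducible p → p ∣ g → m ∣ p.natDegree) : m ∣ g.natDegree := by
  have key : ∀ g : A[X], g ≠ 0 → (∀ p : A[X], Irreducible p → p ∣ g → m ∣ p.natDegree) →
      m ∣ g.natDegree := by
    intro g
    induction g using UniqueFactorizationMonoid.induction_on_prime with
    | h₁ => intro h; exact absurd rfl h
    | h₂ u hu =>
      intro _ _
      rw [natDegree_eq_zero_of_isUnit hu]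
      exact dvd_zero _
    | h₃ a p ha hp ih =>
      intro _ h2
      rw [natDegree_mul hp.ne_zero ha]
      exact dvd_add (h2 p hp.irreducible (Dvd.intro _ rfl))
        (ih ha fun q hq hqa => h2 q hq (hqa.mul_left p))
  exact key g hg h

end dg

section residues

variable {A Ω : Type} [Field A] [Field Ω] [IsAlgClosed Ω] (i : A →+* Ω) (s : Valuation Ω ℝ≥0)
  (u : Valuation A ℝ≥0) (hi : ∀ x, s (i x) = u x)

/-- the map of the residue fields -/
noncomputable def rm : IsLocalRing.ResidueField u.valuationSubring →+*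
    IsLocalRing.ResidueField s.valuationSubring :=
  IsLocalRing.ResidueField.map (jj u s i hi)

/-- the residue of an element of `Ω` -/
noncomputable def rs {s : Valuation Ω ℝ≥0} {x : Ω} (hx : s x ≤ 1) :
    IsLocalRing.ResidueField s.valuationSubring :=
  IsLocalRing.residue _ ⟨x, hx⟩

theorem rs_eq_zero {x : Ω} (hx : s x ≤ 1) : rs hx = 0 ↔ s x < 1 := by
  unfold rs
  rw [IsLocalRing.residue_eq_zero_iff, Valuation.mem_maximalIdeal_iff]

/-- the value of a polynomial and its residue -/
theorem eval_res {x : Ω} (hx : s x ≤ 1) (G : u.valuationSubring[X]) :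
    ∃ h : s ((G.map u.valuationSubring.subtype).eval₂ i x) ≤ 1,
      (G.map (IsLocalRing.residue _)).eval₂ (rm i s u hi) (rs hx) = rs h := by
  have h1 : (G.map u.valuationSubring.subtype).eval₂ i x =
      s.valuationSubring.subtype (G.eval₂ (jj u s i hi) ⟨x, hx⟩) := by
    rw [hom_eval₂, eval₂_map]
    rfl
  refine ⟨?_, ?_⟩
  · rw [h1]
    exact (G.eval₂ (jj u s i hi) ⟨x, hx⟩).2
  · have h2 : (⟨(G.map u.valuationSubring.subtype).eval₂ i x, by
        rw [h1]; exact (G.eval₂ (jj u s i hi) ⟨x, hx⟩).2⟩ : s.valuationSubring) =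
        G.eval₂ (jj u s i hi) ⟨x, hx⟩ := Subtype.ext h1
    unfold rs
    rw [h2, hom_eval₂, eval₂_map]
    rfl

theorem exists_lift (q : (IsLocalRing.ResidueField u.valuationSubring)[X]) (hq : q.Monic) :
    ∃ G : u.valuationSubring[X], G.map (IsLocalRing.residue _) = q ∧ G.Monic ∧
      G.natDegree = q.natDegree := by
  have hl : q ∈ lifts (IsLocalRing.residue u.valuationSubring) := by
    rw [lifts_iff_coeff_lifts]
    intro n
    exact IsLocalRing.residue_surjective _
  obtain ⟨G, h1, h2, h3⟩ := lifts_and_natDegree_eq_and_monic hl hq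
  exact ⟨G, h1, h3, h2⟩

include hi in
/-- The degree of the residue of `x` divides the degree of `x`, if conjugate elements have the same
value. -/
theorem dvd_of_conj {x : Ω} (hx : s x ≤ 1) {p₀ : A[X]} (hp₀ : p₀ ≠ 0) (hp₀x : p₀.eval₂ i x = 0)
    (hc : ∀ r : Ω, (∀ q : A[X], q.eval₂ i x = 0 → q.eval₂ i r = 0) →
      ∀ G : A[X], s (G.eval₂ i r) = s (G.eval₂ i x)) :
    dg (rm i s u hi) (rs hx) ∣ dg i x := by
  classical
  obtain ⟨f, hf1, hf2, hf3, hf4, -⟩ := exists_irr hp₀ hp₀x
  rw [hf4]
  have hconj : ∀ r ∈ (f.map i).roots, ∀ G : A[X], s (G.eval₂ i r) = s (G.eval₂ i x) := by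
    intro r hr
    refine hc r fun q hq => ?_
    have h1 : f ∣ q := by
      letI := i.toAlgebra
      have h2 := minpoly.eq_of_irreducible_of_monic hf1 (show aeval x f = 0 from hf3) hf2
      rw [h2]
      exact minpoly.dvd A x hq
    obtain ⟨t, rfl⟩ := h1
    rw [eval₂_mul]
    have h3 := (mem_roots (Polynomial.map_ne_zero hf1.ne_zero)).1 hr
    rw [IsRoot.def, eval_map] at h3
    rw [h3, zero_mul]
  have hroots : ∀ r ∈ (f.map i).roots, s r ≤ 1 := by
    intro r hr
    have h1 := hconj r hr X
    rw [eval₂_X, eval₂_X] at h1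
    rw [h1]
    exact hx
  have hsplit : (f.map i).Splits := IsAlgClosed.splits _
  have hprod : f.map i = ((f.map i).roots.map fun r => X - C r).prod := by
    rw [← hsplit.eq_prod_roots_of_monic (hf2.map i)]
  -- the roots as integral elements
  have hroots' : ∀ r ∈ (f.map i).roots, r ∈ s.valuationSubring := hroots
  let R' : Multiset s.valuationSubring := (f.map i).roots.pmap (fun r h => ⟨r, h⟩) hroots'
  have hR' : ((R'.map fun r => X - C r).prod).map s.valuationSubring.subtype = f.map i := by
    conv_rhs => rw [hprod]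
    rw [Polynomial.map_multiset_prod, Multiset.map_map]
    congr 1
    have h1 : ∀ r' : s.valuationSubring, (Polynomial.map s.valuationSubring.subtype ∘
        fun r => X - C r) r' = X - C (r' : Ω) := by
      intro r'
      simp
    rw [Multiset.map_congr rfl (fun r' _ => h1 r')]
    have h2 : (f.map i).roots = Multiset.map (fun r' : s.valuationSubring => (r' : Ω)) R' := by
      simp only [R', Multiset.map_pmap, Multiset.pmap_eq_map, Multiset.map_id']
    conv_rhs => rw [h2]
    rw [Multiset.map_map]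
    rfl
  have hcoef : ∀ n, u (f.coeff n) ≤ 1 := by
    intro n
    rw [← hi, ← coeff_map, ← hR', coeff_map]
    exact (((R'.map fun r => X - C r).prod).coeff n).2
  have hl : f ∈ lifts u.valuationSubring.subtype := by
    rw [lifts_iff_coeff_lifts]
    intro n
    exact ⟨⟨_, hcoef n⟩, rfl⟩
  obtain ⟨F, hF1, hF2, hF3⟩ := lifts_and_natDegree_eq_and_monic hl hf2
  have hFj : F.map (jj u s i hi) = (R'.map fun r => X - C r).prod := by
    apply Polynomial.map_injective s.valuationSubring.subtype Subtype.val_injective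
    rw [hR', ← hF1, Polynomial.map_map, Polynomial.map_map]
    rfl
  set Fb := F.map (IsLocalRing.residue u.valuationSubring) with hFb
  have hFbm : Fb.Monic := hF3.map _
  have hFbd : Fb.natDegree = f.natDegree := by
    rw [hFb, hF3.natDegree_map, hF2]
  have hFbr : Fb.map (rm i s u hi) =
      (R'.map fun r => X - C (IsLocalRing.residue s.valuationSubring r)).prod := by
    have h1 : Fb.map (rm i s u hi) = (F.map (jj u s i hi)).map (IsLocalRing.residue _) := by
      rw [hFb, Polynomial.map_map, Polynomial.map_map]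
      rfl
    rw [h1, hFj, Polynomial.map_multiset_prod, Multiset.map_map]
    congr 1
    apply Multiset.map_congr rfl
    intro r _
    simp
  -- the residue of `x` is algebraic
  have hFx : Fb.eval₂ (rm i s u hi) (rs hx) = 0 := by
    obtain ⟨h1, h2⟩ := eval_res i s u hi hx F
    rw [hFb, h2, rs_eq_zero, hF1, hf3, map_zero]
    exact zero_lt_one
  obtain ⟨g, hg1, hg2, hg3, hg4, -⟩ := exists_irr hFbm.ne_zero hFx
  obtain ⟨G, hG1, hG2, hG3⟩ := exists_lift u g hg2
  rw [← hFbd, hg4]
  refine dvd_natDegree hFbm.ne_zero fun p hp hpF => ?_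
  -- a root of `p`
  have h1 : p.map (rm i s u hi) ∣
      (R'.map fun r => X - C (IsLocalRing.residue s.valuationSubring r)).prod := by
    rw [← hFbr]
    exact Polynomial.map_dvd _ hpF
  have h2 : (p.map (rm i s u hi)).Splits := by
    refine Splits.of_dvd ?_ ?_ h1
    · rw [← hFbr, hFbr]
      exact Splits.multisetProd (by
        intro q hq
        obtain ⟨r, -, rfl⟩ := Multiset.mem_map.1 hq
        exact Splits.X_sub_C _)
    · rw [← hFbr]
      exact (hFbm.map _).ne_zero
  obtain ⟨ρ, hρ⟩ := h2.exists_eval_eq_zero (by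
    rw [degree_map]
    exact (degree_pos_of_irreducible hp).ne')
  have h3 : ((R'.map fun r => X - C (IsLocalRing.residue s.valuationSubring r)).prod).eval ρ = 0 := by
    obtain ⟨t, ht⟩ := h1
    rw [ht, eval_mul, hρ, zero_mul]
  rw [eval_multiset_prod, Multiset.prod_eq_zero_iff, Multiset.map_map] at h3
  obtain ⟨r', hr', hr'0⟩ := Multiset.mem_map.1 h3
  have hρr : ρ = IsLocalRing.residue s.valuationSubring r' := by
    simpa [sub_eq_zero] using hr'0
  have hr : (r' : Ω) ∈ (f.map i).roots := by
    obtain ⟨r, hr1, hr2⟩ := Multiset.mem_pmap.1 hr'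
    rw [← hr2]
    exact hr1
  have hr1 : s (r' : Ω) ≤ 1 := hroots _ hr
  have hρ' : p.eval₂ (rm i s u hi) (rs hr1) = 0 := by
    rw [← eval_map]
    have : rs hr1 = ρ := hρr.symm
    rw [this]
    exact hρ
  have hg' : g.eval₂ (rm i s u hi) (rs hr1) = 0 := by
    obtain ⟨h4, h5⟩ := eval_res i s u hi hr1 G
    obtain ⟨h6, h7⟩ := eval_res i s u hi hx G
    rw [hG1] at h5 h7
    rw [h5, rs_eq_zero, hconj _ hr, ← rs_eq_zero s h6, ← h7]
    exact hg3
  rw [← dg_of_irr hg1 hg', dg_of_irr hp hρ']

end residues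

end Pool.Agent.R614.PT
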