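import Pool.Agent.R614.PT.Loc
import Pool.Agent.R614.GE.Many

/-!
# Extending a non-tame valuation to an extension of degree prime to `ℓ`
-/

set_option autoImplicit false
set_option linter.style.haveILetI false
set_option linter.unusedSectionVars false

namespace Pool.Agent.R614.PT

open Polynomial NNReal Pool.Agent.TH686.NF Pool.Agent.R614.GE

theorem coprime_pow {ℓ n : ℕ} (hcop : Nat.Coprime n ℓ) {A B : ℝ≥0} (hA : A ≠ 0)
    (h : A ^ n = B ^ ℓ) : ∃ x y : ℤ, A = (B ^ x * A ^ y) ^ ℓ := by
  have hb := Nat.gcd_eq_gcd_ab n ℓ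
  rw [hcop.gcd_eq_one] at hb
  set u := Nat.gcdA n ℓ
  set w := Nat.gcdB n ℓ
  refine ⟨u, w, ?_⟩
  calc A = A ^ (1 : ℤ) := (zpow_one _).symm
    _ = A ^ ((n : ℤ) * u + ℓ * w) := by rw [← hb]; rfl
    _ = (A ^ n) ^ u * (A ^ ℓ) ^ w := by
      rw [zpow_add₀ hA, zpow_mul, zpow_mul, zpow_natCast, zpow_natCast]
    _ = (B ^ ℓ) ^ u * (A ^ ℓ) ^ w := by rw [h]
    _ = (B ^ u * A ^ w) ^ ℓ := by
      rw [mul_pow, ← zpow_natCast, ← zpow_natCast,
        ← zpow_natCast, ← zpow_natCast, ← zpow_mul, ← zpow_mul, ← zpow_mul, ← zpow_mul,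
        mul_comm u, mul_comm w]

variable {k κ : Type} [Field k] [Field κ] [Algebra k κ] [Algebra.IsAlgebraic k κ]

/-- the value group -/
theorem not_div_aux (v : Valuation k ℝ≥0) (w : Valuation κ ℝ≥0)
    (hw : ∀ a : k, w (algebraMap k κ a) = v a) {ℓ : ℕ} (hℓ : ℓ.Prime)
    (h : ∀ c : κ, ∃ (n : ℕ) (b : k), ¬ ℓ ∣ n ∧ w c ^ n = v b) (hdiv : ¬ Div v ℓ) : ¬ Div w ℓ := by
  intro h1
  apply hdiv
  intro a
  obtain ⟨c, hc⟩ := h1 (algebraMap k κ a)
  rw [hw] at hc
  obtain ⟨n, b, hn, hb⟩ := h c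
  by_cases ha : v a = 0
  · exact ⟨0, by rw [ha, map_zero, zero_pow hℓ.ne_zero]⟩
  have h2 : v a ^ n = v b ^ ℓ := by
    rw [hc, ← pow_mul, mul_comm, pow_mul, hb]
  have hcop : Nat.Coprime n ℓ := by
    rw [Nat.coprime_comm]
    exact (Nat.Prime.coprime_iff_not_dvd hℓ).2 hn
  obtain ⟨x, y, hxy⟩ := coprime_pow hcop ha h2
  refine ⟨b ^ x * a ^ y, ?_⟩
  rw [map_mul, map_zpow₀, map_zpow₀]
  exact hxy

theorem hasExt_of_irr (w : Valuation κ ℝ≥0) {ℓ : ℕ} {H : (RF w)[X]} (hirr : Irreducible H)
    (hm : H.Monic) (hsep : H.Separable) (hdeg : H.natDegree = ℓ) : HasExt w ℓ := by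
  let _ : Fact (Irreducible H) := ⟨hirr⟩
  refine ⟨AdjoinRoot H, inferInstance, inferInstance, isSeparable_adjoinRoot hirr hsep, ?_⟩
  rw [Module.finrank_eq_card_basis (AdjoinRoot.powerBasisAux' hm), Fintype.card_fin, hdeg]

/-- A real valuation of `k` extends to an algebraic extension all of whose elements have degree
prime to `ℓ` such that it stays not tame at `ℓ`. -/
theorem extend (v : Valuation k ℝ≥0) (hv : ∃ a, 1 < v a) {ℓ : ℕ} (hℓ : ℓ.Prime)
    (hκ : ∀ x : κ, ¬ ℓ ∣ (minpoly k x).natDegree) :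
    ∃ w : Valuation κ ℝ≥0, (∀ a : k, w (algebraMap k κ a) = v a) ∧
      (¬ Div v ℓ → ¬ Div w ℓ) ∧ (HasExt v ℓ → HasExt w ℓ) := by
  let _ : NontriviallyNormedField (Cp v) := ntr v hv
  obtain ⟨M, hM, hMmax⟩ := exists_max (C := Cp v) (Ω := AlgebraicClosure (Cp v)) hℓ
  let _ : Algebra k M := ((algebraMap (Cp v) M).comp (emb v)).toAlgebra
  obtain ⟨j⟩ : Nonempty (κ →ₐ[k] M) := by
    apply Field.nonempty_algHom_of_exists_root
    intro x
    obtain ⟨y, hy⟩ := exists_root hMmax ((minpoly k x).map (algebraMap k M))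
      (by rw [natDegree_map]; exact hκ x)
    exact ⟨y, by rw [aeval_def, ← eval_map]; exact hy⟩
  let w : Valuation κ ℝ≥0 := (uM M).comap (j : κ →+* M)
  have hw : ∀ a : k, w (algebraMap k κ a) = v a := by
    intro a
    show sv (Cp v) (algebraMap M (AlgebraicClosure (Cp v)) (j (algebraMap k κ a))) = v a
    rw [j.commutes]
    show sv (Cp v) (algebraMap (Cp v) (AlgebraicClosure (Cp v)) (emb v a)) = v a
    rw [sv_algebraMap]
    exact val_emb v a
  refine ⟨w, hw, ?_, ?_⟩
  · refine not_div_aux v w hw hℓ fun c => ?_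
    have h1 := sv_pow ((j c : M) : AlgebraicClosure (Cp v))
    have h2 := not_dvd_of_mem hM (j c).2
    set n := (minpoly (Cp v) ((j c : M) : AlgebraicClosure (Cp v))).natDegree with hn
    set b := (minpoly (Cp v) ((j c : M) : AlgebraicClosure (Cp v))).coeff 0 with hb
    have h3 : w c ^ n = NormedField.valuation (K := Cp v) b := h1
    by_cases hb0 : b = 0
    · refine ⟨n, 0, h2, ?_⟩
      rw [h3, hb0, map_zero, map_zero]
    · obtain ⟨x, hx⟩ := near v b hb0
      refine ⟨n, x, h2, ?_⟩
      have h4 : NormedField.valuation (emb v x) = NormedField.valuation b := by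
        have e1 : emb v x = b - (b - emb v x) := by ring
        rw [e1]
        exact Valuation.map_sub_eq_of_lt_left _ hx
      rw [h3, ← h4]
      exact val_emb v x
  · rintro ⟨L, fL, aL, hLs, hL⟩
    have hfin : FiniteDimensional (RF v) L := FiniteDimensional.of_finrank_pos (by
      rw [hL]; exact hℓ.pos)
    obtain ⟨α, hα⟩ := Field.exists_primitive_element (RF v) L
    set h := minpoly (RF v) α with hh
    have hint : IsIntegral (RF v) α := Algebra.IsIntegral.isIntegral α
    have hm : h.Monic := minpoly.monic hint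
    have hi : Irreducible h := minpoly.irreducible hint
    have hs : h.Separable := Algebra.IsSeparable.isSeparable _ α
    have hdeg : h.natDegree = ℓ := by
      rw [← hL, ← IntermediateField.finrank_top', ← hα]
      exact (IntermediateField.adjoin.finrank hint).symm
    obtain ⟨f, hf1, hf3, hf2⟩ := exists_lift v h hm
    have ht := transfer v (NormedField.valuation (K := Cp v)) (emb v) (val_emb v) (near v) f
      (by rw [hf1]; exact hi) (by rw [hf1]; exact hs)
    obtain ⟨fC, hfC⟩ : ∃ fC, fC = f.map (jj v (NormedField.valuation (K := Cp v)) (emb v)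
      (val_emb v)) := ⟨_, rfl⟩
    rw [← hfC] at ht
    have hfCm : fC.Monic := by rw [hfC]; exact hf3.map _
    have hfCd : fC.natDegree = ℓ := by rw [hfC, hf3.natDegree_map, hf2, hdeg]
    obtain ⟨G, hG⟩ : ∃ G, G = fC.map (algebraMap _ (Cp v)) := ⟨_, rfl⟩
    have hGi : Irreducible G := by rw [hG]; exact irred_G _ fC hfCm ht.1
    have hGm : G.Monic := by rw [hG]; exact hfCm.map _
    have hGd : G.natDegree = ℓ := by rw [hG, hfCm.natDegree_map, hfCd]
    obtain ⟨β, hβ⟩ := IsAlgClosed.exists_aeval_eq_zero (AlgebraicClosure (Cp v)) G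
      (degree_pos_of_irreducible hGi).ne'
    have hmin : minpoly (Cp v) β = G :=
      (minpoly.eq_of_irreducible_of_monic hGi hβ hGm).symm
    have hβd : (minpoly (Cp v) β).natDegree = ℓ := by rw [hmin, hGd]
    have hβ1 : sv (Cp v) β ≤ 1 := by
      have h1 := sv_pow β
      rw [hβd, hmin, hG, coeff_map] at h1
      have h2 : NormedField.valuation (K := Cp v) (algebraMap _ (Cp v) (fC.coeff 0)) ≤ 1 :=
        (fC.coeff 0).2
      rw [← h1] at h2
      exact (pow_le_one_iff hℓ.ne_zero).1 h2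
    have hres0 : (fC.map (IsLocalRing.residue _)).eval₂ (rm
        (algebraMap (Cp v) (AlgebraicClosure (Cp v))) (sv (Cp v))
        (NormedField.valuation (K := Cp v)) sv_algebraMap) (rs hβ1) = 0 := by
      obtain ⟨h1, h2⟩ := eval_res (algebraMap (Cp v) (AlgebraicClosure (Cp v))) (sv (Cp v))
        (NormedField.valuation (K := Cp v)) sv_algebraMap hβ1 fC
      rw [h2, rs_eq_zero]
      have h3 : (fC.map (NormedField.valuation (K := Cp v)).valuationSubring.subtype).eval₂
          (algebraMap (Cp v) (AlgebraicClosure (Cp v))) β = 0 := by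
        rw [← hβ, aeval_def, hG]
        rfl
      rw [h3, map_zero]
      exact zero_lt_one
    have hres : dg (rm (algebraMap (Cp v) (AlgebraicClosure (Cp v))) (sv (Cp v))
        (NormedField.valuation (K := Cp v)) sv_algebraMap) (rs hβ1) = ℓ := by
      rw [dg_of_irr ht.1 hres0, hfCm.natDegree_map, hfCd]
    have hresM := dg_res hℓ hM hβd hβ1 hres
    -- the residue field of `w`
    have hjw : ∀ x, uM M ((j : κ →+* M) x) = w x := fun _ => rfl
    let g := rm (algebraMap M (AlgebraicClosure (Cp v))) (sv (Cp v)) (uM M) (uM_eq M)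
    let φ : RF w →+* IsLocalRing.ResidueField (uM M).valuationSubring :=
      IsLocalRing.ResidueField.map (jj w (uM M) (j : κ →+* M) hjw)
    let ψ : RF v →+* RF w := IsLocalRing.ResidueField.map (jj v w (algebraMap k κ) hw)
    set H := h.map ψ with hH
    have hHm : H.Monic := hm.map _
    have hHd : H.natDegree = ℓ := by rw [hH, hm.natDegree_map, hdeg]
    have hHs : H.Separable := hs.map
    have hcomp : (g.comp φ).comp (ψ.comp (IsLocalRing.residue v.valuationSubring)) =
        ((rm (algebraMap (Cp v) (AlgebraicClosure (Cp v))) (sv (Cp v))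
        (NormedField.valuation (K := Cp v)) sv_algebraMap).comp (IsLocalRing.residue _)).comp
        (jj v (NormedField.valuation (K := Cp v)) (emb v) (val_emb v)) := by
      ext a
      have h1 : (algebraMap M (AlgebraicClosure (Cp v)) (j (algebraMap k κ (a : k)))) =
          algebraMap (Cp v) (AlgebraicClosure (Cp v)) (emb v a) := by
        rw [j.commutes]
        rfl
      show IsLocalRing.residue (sv (Cp v)).valuationSubring
          ⟨algebraMap M (AlgebraicClosure (Cp v)) (j (algebraMap k κ (a : k))), _⟩ =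
        IsLocalRing.residue (sv (Cp v)).valuationSubring
          ⟨algebraMap (Cp v) (AlgebraicClosure (Cp v)) (emb v a), _⟩
      congr 1
      exact Subtype.ext h1
    have hH0 : H.eval₂ (g.comp φ) (rs hβ1) = 0 := by
      rw [hH, ← hf1, Polynomial.map_map, eval₂_map, hcomp, ← hres0, hfC, Polynomial.map_map,
        eval₂_map]
      rfl
    obtain ⟨q, hq1, hq2, hq3, hq4, hq5⟩ := exists_irr hHm.ne_zero hH0
    have h1 := dg_tower g hHm.ne_zero hH0
    have h2 : q = H := by
      refine (eq_of_monic_of_dvd_of_natDegree_le hq2 hHm hq5 ?_).symm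
      rw [hHd, ← hq4]
      exact hresM.symm.le.trans h1
    rw [h2] at hq1
    exact hasExt_of_irr w hq1 hHm hHs hHd

end Pool.Agent.R614.PT
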