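import Pool.Agent.R614.PT.Ext

/-!
# Extending a valuation to a finite extension
-/

set_option autoImplicit false
set_option linter.style.haveILetI false
set_option linter.unusedSectionVars false

namespace Pool.Agent.R614.PT

open Polynomial NNReal Pool.Agent.TH686.NF Pool.Agent.R614.GE

section

variable {k L : Type} [Field k] [Field L] [Algebra k L]

/-- the value group does not become divisible -/
theorem div_of_pow (v : Valuation k ℝ≥0) (w : Valuation L ℝ≥0)
    (hw : ∀ a : k, w (algebraMap k L a) = v a) {ℓ : ℕ} (hℓ : ℓ.Prime) {D : ℕ} (hD : D ≠ 0)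
    (h : ∀ c : L, ∃ b : k, w c ^ D = v b) (hdiv : Div w ℓ) : Div v ℓ := by
  intro a
  by_cases ha : v a = 0
  · exact ⟨0, by rw [ha, map_zero, zero_pow hℓ.ne_zero]⟩
  obtain ⟨s, n, hn, rfl⟩ := Nat.exists_eq_pow_mul_and_not_dvd hD ℓ hℓ.ne_one
  have h1 : ∀ m : ℕ, ∃ c : L, v a = w c ^ ℓ ^ m := by
    intro m
    induction m with
    | zero => exact ⟨algebraMap k L a, by simp [hw]⟩
    | succ m ih =>
      obtain ⟨c, hc⟩ := ih
      obtain ⟨d, hd⟩ := hdiv c
      exact ⟨d, by rw [hc, hd, ← pow_mul, pow_succ, mul_comm]⟩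
  obtain ⟨c, hc⟩ := h1 (s + 1)
  obtain ⟨b, hb⟩ := h c
  have h2 : (v a ^ n) ^ ℓ ^ s = (v b ^ ℓ) ^ ℓ ^ s := by
    rw [← hb, ← pow_mul, ← pow_mul, ← pow_mul]
    conv_lhs => rw [hc]
    rw [← pow_mul]
    congr 1
    ring
  have h3 : v a ^ n = v b ^ ℓ :=
    (pow_left_inj₀ zero_le zero_le (pow_pos hℓ.pos s).ne').1 h2
  have hcop : Nat.Coprime n ℓ := by
    rw [Nat.coprime_comm]
    exact (Nat.Prime.coprime_iff_not_dvd hℓ).2 hn
  obtain ⟨x, y, hxy⟩ := coprime_pow hcop ha h3
  refine ⟨b ^ x * a ^ y, ?_⟩
  rw [map_mul, map_zpow₀, map_zpow₀]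
  exact hxy

/-- the map of the residue fields -/
noncomputable def rmap {v : Valuation k ℝ≥0} {w : Valuation L ℝ≥0}
    (hw : ∀ a : k, w (algebraMap k L a) = v a) : RF v →+* RF w :=
  IsLocalRing.ResidueField.map (jj v w (algebraMap k L) hw)

theorem finite_rmap [FiniteDimensional k L] {v : Valuation k ℝ≥0} {w : Valuation L ℝ≥0}
    (hw : ∀ a : k, w (algebraMap k L a) = v a) :
    letI := (rmap hw).toAlgebra
    FiniteDimensional (RF v) (RF w) := by
  classical
  letI := (rmap hw).toAlgebra
  let B := Module.Basis.ofVectorSpace (RF v) (RF w)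
  choose x hx using fun i => IsLocalRing.residue_surjective (R := w.valuationSubring) (B i)
  have hind : LinearIndependent k (fun i => (x i : L)) := by
    rw [linearIndependent_iff']
    intro s g hg
    by_contra hcon
    push Not at hcon
    obtain ⟨i₁, hi₁, hgi₁⟩ := hcon
    obtain ⟨i₀, hi₀, hmax⟩ := s.exists_max_image (fun i => v (g i)) ⟨i₁, hi₁⟩
    have hpos : 0 < v (g i₀) :=
      (pos_iff_ne_zero.2 ((Valuation.ne_zero_iff _).2 hgi₁)).trans_le (hmax i₁ hi₁)
    have hg0 : g i₀ ≠ 0 := by
      intro h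
      rw [h, map_zero] at hpos
      exact absurd hpos (lt_irrefl _)
    -- normalized coefficients
    let h : {i // i ∈ s} → v.valuationSubring := fun i => ⟨g i / g i₀, by
      show v (g i / g i₀) ≤ 1
      rw [map_div₀]
      exact div_le_one_of_le₀ (hmax i.1 i.2) zero_le⟩
    have h1 : ∑ i : {i // i ∈ s}, jj v w (algebraMap k L) hw (h i) * x i = 0 := by
      apply Subtype.val_injective
      rw [AddSubmonoidClass.coe_finsetSum]
      have h2 : ∀ i : {i // i ∈ s}, ((jj v w (algebraMap k L) hw (h i) * x i :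
          w.valuationSubring) : L) = (algebraMap k L (g i₀))⁻¹ * (g i • (x i : L)) := by
        intro i
        show algebraMap k L (g i / g i₀) * (x i : L) = _
        rw [map_div₀, Algebra.smul_def]
        ring
      rw [Finset.sum_congr rfl fun i _ => h2 i, ← Finset.mul_sum,
        Finset.sum_coe_sort s (fun i => g i • (x i : L)), hg, mul_zero]
      rfl
    have h2 : ∑ i : {i // i ∈ s}, IsLocalRing.residue _ (h i) • B i = 0 := by
      have h3 := congrArg (IsLocalRing.residue w.valuationSubring) h1
      rw [map_sum, map_zero] at h3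
      rw [← h3]
      refine Finset.sum_congr rfl fun i _ => ?_
      rw [map_mul, hx, Algebra.smul_def]
      rfl
    have h4 := (linearIndependent_iff'.1 (B.linearIndependent.comp
      (fun i : {i // i ∈ s} => (i : _)) Subtype.val_injective)) Finset.univ
      (fun i => IsLocalRing.residue _ (h i)) h2 ⟨i₀, hi₀⟩ (Finset.mem_univ _)
    have h5 : h ⟨i₀, hi₀⟩ = 1 := Subtype.ext (div_self hg0)
    rw [h5, map_one] at h4
    exact one_ne_zero h4
  have hfin := hind.finite
  exact Module.Finite.of_basis B

/-- a valuation of a finite extension -/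
theorem extend_fin [FiniteDimensional k L] (v : Valuation k ℝ≥0) (hv : ∃ a, 1 < v a) :
    ∃ w : Valuation L ℝ≥0, (∀ a : k, w (algebraMap k L a) = v a) ∧
      ∀ ℓ : ℕ, ℓ.Prime → ¬ Div v ℓ → ¬ Div w ℓ := by
  let _ : NontriviallyNormedField (Cp v) := ntr v hv
  let _ : Algebra k (AlgebraicClosure (Cp v)) :=
    ((algebraMap (Cp v) (AlgebraicClosure (Cp v))).comp (emb v)).toAlgebra
  let j : L →ₐ[k] AlgebraicClosure (Cp v) := IsAlgClosed.lift
  let w : Valuation L ℝ≥0 := (sv (Cp v)).comap (j : L →+* AlgebraicClosure (Cp v))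
  have hw : ∀ a : k, w (algebraMap k L a) = v a := by
    intro a
    show sv (Cp v) (j (algebraMap k L a)) = v a
    rw [j.commutes]
    show sv (Cp v) (algebraMap (Cp v) (AlgebraicClosure (Cp v)) (emb v a)) = v a
    rw [sv_algebraMap]
    exact val_emb v a
  refine ⟨w, hw, fun ℓ hℓ h1 h2 => h1 ?_⟩
  refine div_of_pow v w hw hℓ (Nat.factorial_ne_zero (Module.finrank k L)) (fun c => ?_) h2
  have h3 := sv_pow (j c)
  set n := (minpoly (Cp v) (j c)).natDegree with hn
  have hnd : n ∣ (Module.finrank k L).factorial := by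
    have hint : IsIntegral k c := Algebra.IsIntegral.isIntegral c
    have h4 : n ≤ (minpoly k c).natDegree := by
      rw [hn, ← natDegree_map (emb v) (p := minpoly k c)]
      refine natDegree_le_of_dvd (minpoly.dvd _ _ ?_) ((minpoly.monic hint).map _).ne_zero
      rw [aeval_def, eval₂_map]
      have h5 : aeval (j c) (minpoly k c) = 0 := by
        rw [aeval_algHom_apply, minpoly.aeval, map_zero]
      exact h5
    have h5 : (minpoly k c).natDegree ≤ Module.finrank k L := minpoly.natDegree_le c
    exact Nat.dvd_factorial (minpoly.natDegree_pos (Algebra.IsIntegral.isIntegral _))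
      (h4.trans h5)
  obtain ⟨m, hm⟩ := hnd
  set b := (minpoly (Cp v) (j c)).coeff 0 with hb
  have h6 : w c ^ n = NormedField.valuation (K := Cp v) b := h3
  obtain ⟨x, hx⟩ : ∃ x : k, NormedField.valuation (K := Cp v) b = v x := by
    by_cases hb0 : b = 0
    · exact ⟨0, by rw [hb0, map_zero, map_zero]⟩
    · obtain ⟨x, hx⟩ := near v b hb0
      refine ⟨x, ?_⟩
      have h4 : NormedField.valuation (emb v x) = NormedField.valuation b := by
        have e1 : emb v x = b - (b - emb v x) := by ring
        rw [e1]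
        exact Valuation.map_sub_eq_of_lt_left _ hx
      rw [← h4]
      exact val_emb v x
  exact ⟨x ^ m, by rw [hm, pow_mul, h6, hx, map_pow]⟩

end

/-- If the `ℓ`-parts of the degrees of the finite subextensions are bounded, then there is a finite
subextension over which all elements have degree prime to `ℓ`. -/
theorem exists_primeTo {k κ : Type} [Field k] [Field κ] [Algebra k κ] [Algebra.IsAlgebraic k κ]
    {ℓ M : ℕ}
    (h : ∀ L : IntermediateField k κ, FiniteDimensional k L → ¬ ℓ ^ M ∣ Module.finrank k L) :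
    ∃ L : IntermediateField k κ, FiniteDimensional k L ∧
      ∀ x : κ, ¬ ℓ ∣ (minpoly L x).natDegree := by
  classical
  have hex : ∃ M : ℕ, ∀ L : IntermediateField k κ, FiniteDimensional k L →
      ¬ ℓ ^ M ∣ Module.finrank k L := ⟨M, h⟩
  obtain ⟨m, hm⟩ : ∃ m, Nat.find hex = m := ⟨_, rfl⟩
  have h1 : ∀ L : IntermediateField k κ, FiniteDimensional k L → ¬ ℓ ^ m ∣ Module.finrank k L := by
    rw [← hm]
    exact Nat.find_spec hex
  cases m with
  | zero =>
    exfalso
    exact h1 ⊥ inferInstance (by simp)
  | succ m =>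
    have h2 := Nat.find_min hex (m := m) (by omega)
    push Not at h2
    obtain ⟨L, hL, hdvd⟩ := h2
    refine ⟨L, hL, fun x hx => ?_⟩
    have hint : IsIntegral L x := (Algebra.IsIntegral.isIntegral (R := k) x).tower_top
    have hf : FiniteDimensional L (IntermediateField.adjoin L {x}) :=
      IntermediateField.adjoin.finiteDimensional hint
    let K' : IntermediateField k κ := (IntermediateField.adjoin L {x}).restrictScalars k
    have hfk : FiniteDimensional k K' :=
      FiniteDimensional.trans k L (IntermediateField.adjoin L {x})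
    have h4 : Module.finrank k K' = Module.finrank k L * (minpoly L x).natDegree := by
      rw [← IntermediateField.adjoin.finrank hint]
      exact (Module.finrank_mul_finrank k L (IntermediateField.adjoin L {x})).symm
    apply h1 K' hfk
    rw [h4, pow_succ]
    exact mul_dvd_mul hdvd hx

end Pool.Agent.R614.PT
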