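import Pool.Agent.R614.PT.Spec

/-!
# Values and residues in an extension of a complete field of degree prime to `ℓ`
-/

set_option autoImplicit false
set_option linter.style.haveILetI false
set_option linter.unusedSectionVars false

namespace Pool.Agent.R614.PT

open Polynomial NNReal Pool.Agent.TH686.NF

variable {C : Type} [NontriviallyNormedField C] [IsUltrametricDist C] [CompleteSpace C]

theorem dg_minpoly {A B : Type} [Field A] [Field B] [Algebra A B] {x : B} (hx : IsIntegral A x) :
    dg (algebraMap A B) x = (minpoly A x).natDegree :=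
  dg_of_irr (minpoly.irreducible hx) (minpoly.aeval A x)

/-- conjugate elements over `C` have the same value -/
theorem conj_val' {x r : AlgebraicClosure C}
    (h : ∀ q : C[X], q.eval₂ (algebraMap C (AlgebraicClosure C)) x = 0 →
      q.eval₂ (algebraMap C (AlgebraicClosure C)) r = 0) (G : C[X]) :
    sv C (G.eval₂ (algebraMap C (AlgebraicClosure C)) r) =
      sv C (G.eval₂ (algebraMap C (AlgebraicClosure C)) x) := by
  symm
  apply sv_conj
  set y := G.eval₂ (algebraMap C (AlgebraicClosure C)) x with hy
  set z := G.eval₂ (algebraMap C (AlgebraicClosure C)) r with hz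
  have h1 : aeval y (minpoly C y) = 0 := minpoly.aeval C y
  have h2 : ∀ w : AlgebraicClosure C,
      ((minpoly C y).comp G).eval₂ (algebraMap C (AlgebraicClosure C)) w =
        aeval (G.eval₂ (algebraMap C (AlgebraicClosure C)) w) (minpoly C y) := by
    intro w
    rw [eval₂_comp, aeval_def]
  have h3 : aeval z (minpoly C y) = 0 := by
    rw [hz, ← h2]
    apply h
    rw [h2, ← hy]
    exact h1
  exact minpoly.eq_of_irreducible_of_monic
    (minpoly.irreducible (Algebra.IsIntegral.isIntegral y)) h3
    (minpoly.monic (Algebra.IsIntegral.isIntegral y))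

theorem not_dvd_of_mem {ℓ : ℕ} {M : IntermediateField C (AlgebraicClosure C)} (hM : PrimeTo ℓ M)
    {c : AlgebraicClosure C} (hc : c ∈ M) : ¬ ℓ ∣ (minpoly C c).natDegree := by
  have hint : IsIntegral C c := Algebra.IsIntegral.isIntegral c
  rw [← IntermediateField.adjoin.finrank hint]
  refine hM _ ?_ (IntermediateField.adjoin.finiteDimensional hint)
  rw [IntermediateField.adjoin_simple_le_iff]
  exact hc

/-- the valuation of `M` -/
noncomputable def uM (M : IntermediateField C (AlgebraicClosure C)) : Valuation M ℝ≥0 :=
  (sv C).comap (algebraMap M (AlgebraicClosure C))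

theorem uM_eq (M : IntermediateField C (AlgebraicClosure C)) (x : M) :
    sv C (algebraMap M (AlgebraicClosure C) x) = uM M x := rfl

/-- the degree over `M` of an element of degree `ℓ` -/
theorem natDegree_M {ℓ : ℕ} (hℓ : ℓ.Prime) {M : IntermediateField C (AlgebraicClosure C)}
    (hM : PrimeTo ℓ M) {β : AlgebraicClosure C} (hβ : (minpoly C β).natDegree = ℓ) :
    (minpoly M β).natDegree = ℓ := by
  obtain ⟨E, hEM, hfin, -, hdeg⟩ := exists_level (M := M) β ∅ Set.finite_empty
    (Set.empty_subset _)
  have hintC : IsIntegral C β := Algebra.IsIntegral.isIntegral β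
  have hint : IsIntegral E β := hintC.tower_top
  let K' : IntermediateField C (AlgebraicClosure C) :=
    (IntermediateField.adjoin E {β}).restrictScalars C
  have hfK : FiniteDimensional E (IntermediateField.adjoin E {β}) :=
    IntermediateField.adjoin.finiteDimensional hint
  have h4 : Module.finrank C K' = Module.finrank C E * (minpoly M β).natDegree := by
    rw [← hdeg, ← IntermediateField.adjoin.finrank hint]
    exact (Module.finrank_mul_finrank C E (IntermediateField.adjoin E {β})).symm
  have hle : IntermediateField.adjoin C {β} ≤ K' := by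
    rw [IntermediateField.adjoin_simple_le_iff]
    exact IntermediateField.mem_adjoin_simple_self E β
  have h5 : Module.finrank C (IntermediateField.adjoin C {β}) ∣ Module.finrank C K' := by
    let a : Algebra (IntermediateField.adjoin C {β}) K' :=
      (IntermediateField.inclusion hle).toAlgebra
    have : IsScalarTower C (IntermediateField.adjoin C {β}) K' :=
      IsScalarTower.of_algebraMap_eq (fun _ => rfl)
    exact Dvd.intro _ (Module.finrank_mul_finrank C (IntermediateField.adjoin C {β}) K')
  rw [IntermediateField.adjoin.finrank hintC, hβ, h4] at h5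
  have h6 : ℓ ∣ (minpoly M β).natDegree := by
    rcases (hℓ.dvd_mul).1 h5 with h | h
    · exact absurd h (hM E hEM hfin)
    · exact h
  refine Nat.dvd_antisymm ?_ h6
  have h7 : (minpoly M β).natDegree ≤ ℓ := by
    rw [← hβ, ← natDegree_map (algebraMap C M) (p := minpoly C β)]
    exact natDegree_le_of_dvd (minpoly.dvd_map_of_isScalarTower C M β)
      ((minpoly.monic hintC).map _).ne_zero
  have h8 : 0 < (minpoly M β).natDegree := minpoly.natDegree_pos hintC.tower_top
  have h9 := Nat.le_of_dvd h8 h6
  rw [le_antisymm h7 h9]

/-- The residue of an element `β` of degree `ℓ` whose residue has degree `ℓ` has degree `ℓ` over the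
residue field of `M`. -/
theorem dg_res {ℓ : ℕ} (hℓ : ℓ.Prime) {M : IntermediateField C (AlgebraicClosure C)}
    (hM : PrimeTo ℓ M) {β : AlgebraicClosure C} (hβ : (minpoly C β).natDegree = ℓ)
    (hβ1 : sv C β ≤ 1)
    (hres : dg (rm (algebraMap C (AlgebraicClosure C)) (sv C) (NormedField.valuation (K := C))
      sv_algebraMap) (rs hβ1) = ℓ) :
    dg (rm (algebraMap M (AlgebraicClosure C)) (sv C) (uM M) (uM_eq M)) (rs hβ1) = ℓ := by
  have hintC : IsIntegral C β := Algebra.IsIntegral.isIntegral β
  have hintM : IsIntegral M β := hintC.tower_top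
  have h1 : dg (rm (algebraMap M (AlgebraicClosure C)) (sv C) (uM M) (uM_eq M)) (rs hβ1) ∣ ℓ := by
    have h := dvd_of_conj (algebraMap M (AlgebraicClosure C)) (sv C) (uM M) (uM_eq M) hβ1
      (p₀ := minpoly M β) (minpoly.ne_zero hintM) (minpoly.aeval M β)
      (fun r hr G => conj_val M hr G)
    rwa [dg_minpoly hintM, natDegree_M hℓ hM hβ] at h
  rcases (Nat.dvd_prime hℓ).1 h1 with h2 | h2
  · exfalso
    -- the residue of `β` is the residue of an element of `M`
    obtain ⟨c, hc⟩ : ∃ c, rm (algebraMap M (AlgebraicClosure C)) (sv C) (uM M) (uM_eq M) c =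
        rs hβ1 := by
      letI := (rm (algebraMap M (AlgebraicClosure C)) (sv C) (uM M) (uM_eq M)).toAlgebra
      have h3 : (minpoly (IsLocalRing.ResidueField (uM M).valuationSubring) (rs hβ1)).natDegree = 1 :=
        h2
      exact minpoly.natDegree_eq_one_iff.1 h3
    obtain ⟨c, rfl⟩ := IsLocalRing.residue_surjective c
    have hc1 : sv C ((c : M) : AlgebraicClosure C) ≤ 1 := c.2
    have hcr : rs hβ1 = rs hc1 := by
      rw [← hc]
      rfl
    have hintc : IsIntegral C ((c : M) : AlgebraicClosure C) := Algebra.IsIntegral.isIntegral _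
    have h4 := dvd_of_conj (algebraMap C (AlgebraicClosure C)) (sv C)
      (NormedField.valuation (K := C)) sv_algebraMap hc1
      (p₀ := minpoly C ((c : M) : AlgebraicClosure C)) (minpoly.ne_zero hintc)
      (minpoly.aeval C _) (fun r hr G => conj_val' hr G)
    rw [dg_minpoly hintc, ← hcr, hres] at h4
    exact not_dvd_of_mem hM (c : M).2 h4
  · exact h2

end Pool.Agent.R614.PT
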