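import Mathlib

/-!
# Maximal algebraic extensions of degree prime to `ℓ`
-/

set_option autoImplicit false

namespace Pool.Agent.R614.PT

open Polynomial IntermediateField

/-- the degree over a subfield which contains the coefficients of the minimal polynomial -/
theorem natDegree_eq {A B Ω : Type*} [Field A] [Field B] [Field Ω] [Algebra A B] [Algebra A Ω]
    [Algebra B Ω] [IsScalarTower A B Ω] {β : Ω} (hβ : IsIntegral B β)
    (hco : ∀ n, (minpoly B β).coeff n ∈ (algebraMap A B).range) :
    IsIntegral A β ∧ (minpoly A β).natDegree = (minpoly B β).natDegree := by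
  have h1 : minpoly B β ∈ Polynomial.lifts (algebraMap A B) := by
    rw [Polynomial.lifts_iff_coeff_lifts]
    exact hco
  obtain ⟨g, hg1, hg2, hg3⟩ := lifts_and_natDegree_eq_and_monic h1 (minpoly.monic hβ)
  have h2 : aeval β g = 0 := by
    rw [← aeval_map_algebraMap (A := B), hg1, minpoly.aeval]
  have h3 : IsIntegral A β := ⟨g, hg3, by rw [← aeval_def]; exact h2⟩
  refine ⟨h3, le_antisymm ?_ ?_⟩
  · rw [← hg2]
    exact natDegree_le_of_dvd (minpoly.dvd A β h2) hg3.ne_zero
  · rw [← natDegree_map (algebraMap A B) (p := minpoly A β)]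
    exact natDegree_le_of_dvd (minpoly.dvd_map_of_isScalarTower A B β)
      ((minpoly.monic h3).map _).ne_zero

variable {C Ω : Type} [Field C] [Field Ω] [Algebra C Ω]

/-- all finite subextensions have degree prime to `ℓ` -/
def PrimeTo (ℓ : ℕ) (M : IntermediateField C Ω) : Prop :=
  ∀ E : IntermediateField C Ω, E ≤ M → FiniteDimensional C E → ¬ ℓ ∣ Module.finrank C E

theorem exists_gen (E : IntermediateField C Ω) (h : FiniteDimensional C E) :
    ∃ S : Finset Ω, adjoin C (S : Set Ω) = E := by
  have h1 : (Subalgebra.toSubmodule E.toSubalgebra).FG := Module.Finite.iff_fg.1 h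
  exact fg_of_fg_toSubalgebra E (Subalgebra.fg_of_fg_toSubmodule h1)

theorem exists_finite_le {M : IntermediateField C Ω} [Algebra.IsAlgebraic C Ω] (S : Set Ω)
    (hS : S.Finite) (hSM : S ⊆ M) :
    ∃ E : IntermediateField C Ω, E ≤ M ∧ FiniteDimensional C E ∧ S ⊆ E := by
  refine ⟨adjoin C S, adjoin_le_iff.2 hSM, ?_, subset_adjoin C S⟩
  have := hS.to_subtype
  exact finiteDimensional_adjoin fun x _ => Algebra.IsIntegral.isIntegral x

/-- a subextension `E` of `M`, finite over `C`, over which `x` has the same degree as over `M` and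
which contains a given finite subset of `M` -/
theorem exists_level [Algebra.IsAlgebraic C Ω] {M : IntermediateField C Ω} (x : Ω) (S : Set Ω)
    (hS : S.Finite) (hSM : S ⊆ M) :
    ∃ E : IntermediateField C Ω, E ≤ M ∧ FiniteDimensional C E ∧ S ⊆ E ∧
      (minpoly E x).natDegree = (minpoly M x).natDegree := by
  classical
  let S' : Set Ω := S ∪ ((minpoly M x).coeffs.image (algebraMap M Ω) : Finset Ω)
  have hS' : S'.Finite := hS.union (Finset.finite_toSet _)
  have hS'M : S' ⊆ M := by
    intro y hy
    rcases hy with hy | hy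
    · exact hSM hy
    · rw [Finset.mem_coe, Finset.mem_image] at hy
      obtain ⟨z, -, rfl⟩ := hy
      exact z.2
  obtain ⟨E, hEM, hfin, hE⟩ := exists_finite_le S' hS' hS'M
  refine ⟨E, hEM, hfin, fun y hy => hE (Or.inl hy), ?_⟩
  let a : Algebra E M := (inclusion hEM).toAlgebra
  have : IsScalarTower E M Ω := IsScalarTower.of_algebraMap_eq (fun _ => rfl)
  have hint : IsIntegral M x := (Algebra.IsIntegral.isIntegral (R := C) x).tower_top
  refine (natDegree_eq hint fun n => ?_).2
  by_cases h0 : (minpoly M x).coeff n = 0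
  · rw [h0]
    exact zero_mem _
  · have h1 : algebraMap M Ω ((minpoly M x).coeff n) ∈ E := by
      apply hE
      right
      rw [Finset.mem_coe, Finset.mem_image]
      exact ⟨_, coeff_mem_coeffs h0, rfl⟩
    exact ⟨⟨_, h1⟩, Subtype.ext rfl⟩

theorem primeTo_adjoin [Algebra.IsAlgebraic C Ω] {ℓ : ℕ} (hℓ : ℓ.Prime)
    {M : IntermediateField C Ω} (hM : PrimeTo ℓ M) {x : Ω}
    (hx : ¬ ℓ ∣ (minpoly M x).natDegree) : PrimeTo ℓ ((adjoin M {x}).restrictScalars C) := by
  classical
  intro E hE hfin
  obtain ⟨S, hS⟩ := exists_gen E hfin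
  have h1 : ∀ s : Ω, ∃ p q : M[X], s ∈ S → s = aeval x p / aeval x q := by
    intro s
    by_cases hs : s ∈ S
    · have h2 : s ∈ adjoin M {x} := by
        apply hE
        rw [← hS]
        exact subset_adjoin C _ hs
      obtain ⟨p, q, h⟩ := (mem_adjoin_simple_iff M s).1 h2
      exact ⟨p, q, fun _ => h⟩
    · exact ⟨0, 0, fun h => absurd h hs⟩
  choose p q hpq using h1
  let T : Finset Ω := (S.biUnion fun s => (p s).coeffs ∪ (q s).coeffs).image (algebraMap M Ω)
  obtain ⟨E', hE'M, hfin', hTE', hdeg⟩ := exists_level x (T : Set Ω) (Finset.finite_toSet _)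
    (by
      intro y hy
      rw [Finset.mem_coe, Finset.mem_image] at hy
      obtain ⟨z, -, rfl⟩ := hy
      exact z.2)
  let K' : IntermediateField C Ω := (adjoin E' {x}).restrictScalars C
  have hmem : ∀ (r : M[X]), (∀ c ∈ r.coeffs, algebraMap M Ω c ∈ E') → aeval x r ∈ K' := by
    intro r hr
    rw [aeval_eq_sum_range]
    refine sum_mem fun i _ => ?_
    show (r.coeff i : Ω) * x ^ i ∈ K'
    refine mul_mem ?_ (pow_mem ?_ i)
    · by_cases h0 : r.coeff i = 0
      · rw [h0]
        exact zero_mem _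
      · have h3 := hr _ (coeff_mem_coeffs h0)
        show _ ∈ adjoin E' {x}
        exact (adjoin E' {x}).algebraMap_mem ⟨_, h3⟩
    · show x ∈ adjoin E' {x}
      exact mem_adjoin_simple_self E' x
  have hEK : E ≤ K' := by
    rw [← hS, adjoin_le_iff]
    intro s hs
    have hs' : s ∈ S := hs
    have h2 := hpq s hs'
    rw [h2]
    refine div_mem (hmem _ fun c hc => ?_) (hmem _ fun c hc => ?_)
    · apply hTE'
      rw [Finset.mem_coe, Finset.mem_image]
      exact ⟨c, Finset.mem_biUnion.2 ⟨s, hs', Finset.mem_union_left _ hc⟩, rfl⟩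
    · apply hTE'
      rw [Finset.mem_coe, Finset.mem_image]
      exact ⟨c, Finset.mem_biUnion.2 ⟨s, hs', Finset.mem_union_right _ hc⟩, rfl⟩
  have hint : IsIntegral E' x := (Algebra.IsIntegral.isIntegral (R := C) x).tower_top
  have hfK : FiniteDimensional E' (adjoin E' {x}) := adjoin.finiteDimensional hint
  have h4 : Module.finrank C K' = Module.finrank C E' * (minpoly M x).natDegree := by
    rw [← hdeg, ← adjoin.finrank hint]
    exact (Module.finrank_mul_finrank C E' (adjoin E' {x})).symm
  have h5 : Module.finrank C E ∣ Module.finrank C K' := by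
    let a : Algebra E K' := (inclusion hEK).toAlgebra
    have : IsScalarTower C E K' := IsScalarTower.of_algebraMap_eq (fun _ => rfl)
    exact Dvd.intro _ (Module.finrank_mul_finrank C E K')
  intro h6
  have h7 := h6.trans h5
  rw [h4] at h7
  rcases (hℓ.dvd_mul).1 h7 with h | h
  · exact hM E' hE'M hfin' h
  · exact hx h

/-- There is a maximal extension of degree prime to `ℓ`. -/
theorem exists_max [Algebra.IsAlgebraic C Ω] {ℓ : ℕ} (hℓ : ℓ.Prime) :
    ∃ M : IntermediateField C Ω, PrimeTo ℓ M ∧
      ∀ x : Ω, ¬ ℓ ∣ (minpoly M x).natDegree → x ∈ M := by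
  have hz : ∃ M, (⊥ : IntermediateField C Ω) ≤ M ∧ Maximal (PrimeTo (C := C) (Ω := Ω) ℓ) M := by
    refine zorn_le_nonempty₀ {M | PrimeTo (C := C) (Ω := Ω) ℓ M} ?_ ⊥ ?_
    · intro c hc1 hc2 y hy
      refine ⟨sSup c, ?_, fun z hz => le_sSup hz⟩
      intro E hE hfin
      have hcomp : IsCompactElement E := by
        obtain ⟨S, hS⟩ := exists_gen E hfin
        rw [← hS]
        exact adjoin_finset_isCompactElement S
      obtain ⟨M, hM1, hM2⟩ := hcomp c (sSup c) ⟨y, hy⟩ hc2.directedOn (isLUB_sSup c) hE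
      exact hc1 hM1 E hM2 hfin
    · intro E hE hfin
      rw [le_bot_iff.1 hE, IntermediateField.finrank_bot]
      exact hℓ.one_lt.ne' ∘ Nat.dvd_one.1
  obtain ⟨M, -, hM⟩ := hz
  refine ⟨M, hM.1, fun x hx => ?_⟩
  have h1 := primeTo_adjoin hℓ hM.1 hx
  have h2 : M ≤ (adjoin M {x}).restrictScalars C := by
    intro y hy
    exact (adjoin M {x}).algebraMap_mem ⟨y, hy⟩
  have h3 := hM.2 h1 h2
  exact h3 (mem_adjoin_simple_self M x)

/-- A polynomial of degree prime to `ℓ` has a root in the maximal extension. -/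
theorem exists_root [IsAlgClosed Ω] {ℓ : ℕ} {M : IntermediateField C Ω}
    (hM : ∀ x : Ω, ¬ ℓ ∣ (minpoly M x).natDegree → x ∈ M) (f : M[X]) (hf : ¬ ℓ ∣ f.natDegree) :
    ∃ y : M, f.IsRoot y := by
  by_contra hcon
  push Not at hcon
  have key : ∀ g : M[X], g ≠ 0 → (∀ y : M, ¬ g.IsRoot y) → ℓ ∣ g.natDegree := by
    intro g
    induction g using UniqueFactorizationMonoid.induction_on_prime with
    | h₁ => intro h; exact absurd rfl h
    | h₂ u hu =>
      intro _ _
      rw [natDegree_eq_zero_of_isUnit hu]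
      exact dvd_zero _
    | h₃ a p ha hp ih =>
      intro _ h2
      rw [natDegree_mul hp.ne_zero ha]
      refine dvd_add ?_ (ih ha fun y hy => h2 y ?_)
      · by_contra h3
        obtain ⟨x, hx⟩ := IsAlgClosed.exists_aeval_eq_zero Ω p
          (fun h => by
            apply h3
            rw [natDegree_eq_of_degree_eq_some h]
            exact dvd_zero _)
        have h4 := minpoly.eq_of_irreducible hp.irreducible hx
        have h5 : (minpoly M x).natDegree = p.natDegree := by
          rw [← h4, natDegree_mul_C (inv_ne_zero (leadingCoeff_ne_zero.2 hp.ne_zero))]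
        have h6 := hM x (by rw [h5]; exact h3)
        apply h2 ⟨x, h6⟩
        have h7 : p.IsRoot ⟨x, h6⟩ := by
          have h8 : algebraMap M Ω (p.eval ⟨x, h6⟩) = 0 := by
            rw [← hx, ← aeval_algebraMap_apply_eq_algebraMap_eval]
            rfl
          exact (map_eq_zero _).1 h8
        rw [IsRoot.def, eval_mul, h7, zero_mul]
      · rw [IsRoot.def, eval_mul, hy, mul_zero]
  exact hf (key f (by rintro rfl; exact hcon 0 (by simp)) hcon)

end Pool.Agent.R614.PT
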