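import Pool.Agent.R614.PT.Defs
import Pool.Agent.R614.PT.Fin
import Pool.Agent.Y562.NN.Main

/-!
# Algebraic extensions of the field of fractions of a Noetherian domain
-/

set_option autoImplicit false
set_option linter.style.haveILetI false
set_option linter.unusedSectionVars false

namespace Pool.Agent.R614.PT

open Polynomial NNReal IsLocalRing Pool.Agent.TH686.NF

/-- Among any `N` pairwise incomparable real valuations of `κ` there is one which is tame at `ℓ`. -/
def Few (κ : Type) [Field κ] (ℓ N : ℕ) : Prop :=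
  ∀ w : Fin N → Valuation κ ℝ≥0, (Pairwise fun i j => ∃ z, w i z < 1 ∧ 1 < w j z) →
    ∃ i, GE.Div (w i) ℓ ∨ ¬ GE.HasExt (w i) ℓ

theorem nontrivial_of_not_div {k : Type} [Field k] {v : Valuation k ℝ≥0} {ℓ : ℕ}
    (hℓ : ℓ ≠ 0) (h : ¬ GE.Div v ℓ) : ∃ a, 1 < v a := by
  by_contra hcon
  push Not at hcon
  apply h
  intro a
  by_cases ha : a = 0
  · exact ⟨0, by rw [ha, map_zero, zero_pow hℓ]⟩
  · have h1 : v a = 1 := by
      refine le_antisymm (hcon a) ?_
      have h2 := hcon a⁻¹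
      rw [map_inv₀] at h2
      exact (inv_le_one₀ (pos_iff_ne_zero.2 ((Valuation.ne_zero_iff _).2 ha))).1 h2
    exact ⟨1, by rw [h1, map_one, one_pow]⟩

section

variable {k κ : Type} [Field k] [Field κ] [Algebra k κ] [Algebra.IsAlgebraic k κ]

/-- extension of valuations to extensions of degree prime to `ℓ` -/
theorem few_primeTo {ℓ N : ℕ} (hℓ : ℓ.Prime) (hκ : Few κ ℓ N)
    (hp : ∀ x : κ, ¬ ℓ ∣ (minpoly k x).natDegree) : Few k ℓ N := by
  intro u hu
  by_contra hcon
  push Not at hcon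
  choose w hw1 hw2 hw3 using fun i => extend (κ := κ) (u i)
    (nontrivial_of_not_div hℓ.ne_zero (hcon i).1) hℓ hp
  obtain ⟨i, hi⟩ := hκ w (by
    intro i j hij
    obtain ⟨z, hz1, hz2⟩ := hu hij
    exact ⟨algebraMap k κ z, by rw [hw1]; exact hz1, by rw [hw1]; exact hz2⟩)
  rcases hi with hi | hi
  · exact hw2 i (hcon i).1 hi
  · exact hi (hw3 i (hcon i).2)

/-- extension of valuations to extensions with bounded `ℓ`-part -/
theorem few_bounded {ℓ N M : ℕ} (hℓ : ℓ.Prime) (hκ : Few κ ℓ N)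
    (hM : ∀ L : IntermediateField k κ, FiniteDimensional k L → ¬ ℓ ^ M ∣ Module.finrank k L)
    (u : Fin N → Valuation k ℝ≥0) (hu : Pairwise fun i j => ∃ z, u i z < 1 ∧ 1 < u j z) :
    ∃ i, GE.Div (u i) ℓ ∨ ¬ SepExtAll (GE.RF (u i)) ℓ := by
  by_contra hcon
  push Not at hcon
  obtain ⟨L, hL, hLp⟩ := exists_primeTo hM
  have hfew := few_primeTo hℓ hκ hLp
  choose w hw1 hw2 using fun i => extend_fin (L := L) (u i)
    (nontrivial_of_not_div hℓ.ne_zero (hcon i).1)
  obtain ⟨i, hi⟩ := hfew w (by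
    intro i j hij
    obtain ⟨z, hz1, hz2⟩ := hu hij
    exact ⟨algebraMap k L z, by rw [hw1]; exact hz1, by rw [hw1]; exact hz2⟩)
  rcases hi with hi | hi
  · exact hw2 i ℓ hℓ (hcon i).1 hi
  · exact hi ((hcon i).2 _ (rmap (hw1 i)) (finite_rmap (hw1 i)))

end

/-! ### Extensions of fields with a discrete valuation ring -/

theorem sepExt_of_dvr {L : Type} [Field L] (V : ValuationSubring L) (hV : IsDiscreteValuationRing V)
    {d : ℕ} (hd : 2 ≤ d) : SepExt L d := by
  obtain ⟨ϖ, hϖ⟩ := IsDiscreteValuationRing.exists_irreducible V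
  set f : V[X] := X ^ d + (C ϖ * X + C ϖ) with hf
  have hdeg1 : (C ϖ * X + C ϖ : V[X]).degree < d := by
    refine (degree_linear_le).trans_lt ?_
    exact_mod_cast (by omega : 1 < d)
  have hm : f.Monic := monic_X_pow_add hdeg1
  have hdeg : f.natDegree = d := by
    rw [hf, natDegree_add_eq_left_of_degree_lt, natDegree_X_pow]
    rw [degree_X_pow]
    exact hdeg1
  have hc0 : f.coeff 0 = ϖ := by
    simp [hf, coeff_X_pow, show (0 : ℕ) ≠ d by omega]
  have hp : (Ideal.span {ϖ} : Ideal V).IsPrime := by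
    rw [Ideal.span_singleton_prime hϖ.ne_zero]
    exact hϖ.prime
  have heis : f.IsEisensteinAt (Ideal.span {ϖ}) := by
    refine ⟨?_, ?_, ?_⟩
    · rw [hm.leadingCoeff]
      exact fun h => hp.ne_top ((Ideal.eq_top_iff_one _).2 h)
    · intro n hn
      rw [hdeg] at hn
      have h1 : f.coeff n = (C ϖ * X + C ϖ : V[X]).coeff n := by
        rw [hf, coeff_add, coeff_X_pow, if_neg hn.ne, zero_add]
      rw [h1, Ideal.mem_span_singleton, show (C ϖ * X + C ϖ : V[X]) = C ϖ * (X + 1) by ring,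
        coeff_C_mul]
      exact Dvd.intro _ rfl
    · rw [hc0, Ideal.span_singleton_pow, Ideal.mem_span_singleton, pow_two]
      rintro ⟨c, hc⟩
      have h1 : ϖ * 1 = ϖ * (ϖ * c) := by rw [mul_one, ← mul_assoc]; exact hc
      have h2 := mul_left_cancel₀ hϖ.ne_zero h1
      exact hϖ.not_isUnit (IsUnit.of_mul_eq_one c h2.symm)
  have hirr : Irreducible f := heis.irreducible hp hm.isPrimitive (by omega)
  obtain ⟨G, hG⟩ : ∃ G, G = f.map (algebraMap V L) := ⟨_, rfl⟩
  have hGi : Irreducible G := by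
    rw [hG]
    exact hm.irreducible_iff_irreducible_map_fraction_map.1 hirr
  have hGm : G.Monic := by rw [hG]; exact hm.map _
  have hGs : G.Separable := by
    rw [separable_iff_derivative_ne_zero hGi]
    intro h
    have h1 : (derivative G).coeff 0 = algebraMap V L ϖ := by
      rw [coeff_derivative, hG, coeff_map]
      have h2 : f.coeff (0 + 1) = ϖ := by
        simp [hf, coeff_X_pow, show (1 : ℕ) ≠ d by omega, coeff_C]
      rw [h2]
      simp
    rw [h, coeff_zero] at h1
    exact hϖ.ne_zero (Subtype.ext h1.symm)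
  let _ : Fact (Irreducible G) := ⟨hGi⟩
  refine ⟨AdjoinRoot G, inferInstance, inferInstance, isSeparable_adjoinRoot hGi hGs, ?_⟩
  rw [Module.finrank_eq_card_basis (AdjoinRoot.powerBasisAux' hGm), Fintype.card_fin, hG,
    hm.natDegree_map, hdeg]

/-- the field of fractions of a Noetherian domain which is not a field -/
theorem sepExtAll_of_frac (B K : Type) [CommRing B] [IsDomain B] [IsNoetherianRing B]
    [Field K] [Algebra B K] [IsFractionRing B K] (hB : ¬ IsField B) {d : ℕ} (hd : 2 ≤ d) :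
    SepExtAll K d := by
  intro L _ f hf
  let _ : Algebra K L := f.toAlgebra
  let _ : Algebra B L := (f.comp (algebraMap B K)).toAlgebra
  have : IsScalarTower B K L := IsScalarTower.of_algebraMap_eq' rfl
  have : FiniteDimensional K L := hf
  obtain ⟨b, hb0, hb⟩ := Ring.exists_not_isUnit_of_not_isField hB
  have h1 : Ideal.span {b} ≠ ⊤ := by
    rw [Ne, Ideal.span_singleton_eq_top]
    exact hb
  obtain ⟨𝔮, h𝔮⟩ := Ideal.nonempty_minimalPrimes h1
  have hp : 𝔮.IsPrime := h𝔮.1.1
  have h2 : 𝔮.height ≤ 1 := Ideal.height_le_one_of_isPrincipal_of_mem_minimalPrimes _ 𝔮 h𝔮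
  have h3 : 𝔮 ≠ ⊥ := by
    rintro rfl
    exact hb0 (h𝔮.1.2 (Ideal.mem_span_singleton_self b))
  obtain ⟨V, hV, -⟩ := Pool.Agent.Y562.NN.exists_dvr B K L 𝔮 h3 h2
  exact sepExt_of_dvr V hV hd

theorem sepExtAll_of_finite (R : Type) [Field R] [Finite R] {ℓ : ℕ} (hℓ : ℓ.Prime) :
    SepExtAll R ℓ := by
  intro κ _ f hf
  let _ : Algebra R κ := f.toAlgebra
  have : FiniteDimensional R κ := hf
  have : Finite κ := Module.finite_of_finite R
  obtain ⟨p, hp⟩ := CharP.exists κ
  have hp' : Fact p.Prime := ⟨CharP.char_is_prime κ p⟩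
  have : NeZero ℓ := ⟨hℓ.ne_zero⟩
  have h1 := FiniteField.finrank_extension κ p ℓ
  exact ⟨FiniteField.Extension κ p ℓ, inferInstance, inferInstance, inferInstance, h1⟩

end Pool.Agent.R614.PT
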