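import Pool.Agent.R614.PT.Noeth

/-!
# Noetherian domains: dimension and maximal ideals
-/

set_option autoImplicit false
set_option linter.style.haveILetI false
set_option linter.unusedSectionVars false

namespace Pool.Agent.R614.PT

open Polynomial NNReal IsLocalRing Pool.Agent.Y562.NN

/-- real valuations of the field of fractions `K` of `A` at prime ideals of height one -/
theorem exists_vals (A K : Type) [CommRing A] [IsDomain A] [IsNoetherianRing A] [Field K]
    [Algebra A K] [IsFractionRing A K] {ι : Type} (P : ι → Ideal A)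
    (hinj : Function.Injective P) (hp : ∀ i, (P i).IsPrime)
    (h0 : ∀ i, P i ≠ ⊥) (h1 : ∀ i, (P i).height ≤ 1) :
    ∃ v : ι → Valuation K ℝ≥0, (Pairwise fun i j => ∃ x, v i x < 1 ∧ 1 < v j x) ∧
      (∀ i d, 2 ≤ d → ¬ GE.Div (v i) d) ∧
      ∀ i, ∃ f : (P i).ResidueField →+* GE.RF (v i), f.Finite := by
  have h3 := fun i => exists_dvr A K K (P i) (h0 i) (h1 i)
  choose V hV hV1 hV2 f hf using h3
  have h4 := fun i => exists_real (V i) (hV i)
  choose v hv using h4
  have hlt : ∀ i x, (V i).valuation x < 1 ↔ v i x < 1 := by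
    intro i x
    rw [hv i]
    exact ((v i).isEquiv_valuation_valuationSubring.lt_one_iff_lt_one).symm
  have heq : ∀ i x, (V i).valuation x = 1 ↔ v i x = 1 := by
    intro i x
    rw [hv i]
    exact ((v i).isEquiv_valuation_valuationSubring.eq_one_iff_eq_one).symm
  refine ⟨v, ?_, ?_, ?_⟩
  · intro i j hij
    have hne : P i ≠ P j := fun h => hij (hinj h)
    obtain ⟨a, ha, ha'⟩ := SetLike.not_le_iff_exists.1
      (not_le_of_ne (hp i) (hp j) (h0 i) (h1 j) hne)
    obtain ⟨b, hb, hb'⟩ := SetLike.not_le_iff_exists.1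
      (not_le_of_ne (hp j) (hp i) (h0 j) (h1 i) hne.symm)
    have h5 := (hlt i _).1 (hV1 i a ha)
    have h6 := (heq i _).1 (hV2 i b hb')
    have h7 := (heq j _).1 (hV2 j a ha')
    have h8 := (hlt j _).1 (hV1 j b hb)
    have hb0 : algebraMap A K b ≠ 0 := by
      intro h
      rw [h, map_zero] at h6
      exact zero_ne_one h6
    refine ⟨algebraMap A K a / algebraMap A K b, ?_, ?_⟩
    · rw [map_div₀, h6, div_one]
      exact h5
    · rw [map_div₀, h7, one_div]
      exact (one_lt_inv₀ (pos_iff_ne_zero.2 ((Valuation.ne_zero_iff _).2 hb0))).2 h8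
  · intro i d hd hdiv
    have h8 : IsDiscreteValuationRing (v i).valuationSubring := by
      have h9 := hV i
      rw [hv i] at h9
      exact h9
    obtain ⟨a, ha⟩ := value_not_pow (v i) h8 hd
    obtain ⟨c, hc⟩ := hdiv a
    exact ha c hc
  · intro i
    have h5 : ∀ W : ValuationSubring K, V i = W →
        ∃ g : (P i).ResidueField →+* ResidueField W, g.Finite := by
      rintro _ rfl
      exact ⟨f i, hf i⟩
    exact h5 _ (hv i)

section

variable (A K : Type) {κ : Type} [CommRing A] [IsDomain A] [IsNoetherianRing A] [Field K]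
  [Algebra A K] [IsFractionRing A K] [Field κ] [Algebra K κ] [Algebra.IsAlgebraic K κ]

theorem bad_ideals {ℓ N M : ℕ} (hℓ : ℓ.Prime) (hκ : Few κ ℓ N)
    (hM : ∀ L : IntermediateField K κ, FiniteDimensional K L → ¬ ℓ ^ M ∣ Module.finrank K L)
    (P : Fin N → Ideal A) (hinj : Function.Injective P) (hp : ∀ i, (P i).IsPrime)
    (h0 : ∀ i, P i ≠ ⊥) (h1 : ∀ i, (P i).height ≤ 1)
    (h2 : ∀ i, SepExtAll (P i).ResidueField ℓ) : False := by
  obtain ⟨v, hv1, hv2, hv3⟩ := exists_vals A K P hinj hp h0 h1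
  obtain ⟨i, hi⟩ := few_bounded hℓ hκ hM v hv1
  rcases hi with hi | hi
  · exact hv2 i ℓ hℓ.two_le hi
  · obtain ⟨f, hf⟩ := hv3 i
    exact hi fun R' _ g hg => h2 i R' (g.comp f) (hg.comp hf)

theorem sepExtAll_of_not_maximal {A : Type} [CommRing A] [IsDomain A] [IsNoetherianRing A]
    (P : Ideal A) [P.IsPrime] (hP : ¬ P.IsMaximal) {d : ℕ} (hd : 2 ≤ d) :
    SepExtAll P.ResidueField d :=
  sepExtAll_of_frac (A ⧸ P) P.ResidueField
    (fun h => hP (Ideal.Quotient.maximal_of_isField P h)) hd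

theorem sepExtAll_of_quotient {A : Type} [CommRing A] (P : Ideal A) [P.IsMaximal] {d : ℕ}
    (h : ∀ (κ : Type) [Field κ] (f : A ⧸ P →+* κ), f.Finite → SepExt κ d) :
    SepExtAll P.ResidueField d := by
  intro κ _ g hg
  refine h κ (g.comp (algebraMap (A ⧸ P) P.ResidueField)) (hg.comp ?_)
  exact RingHom.Finite.of_surjective _ (Ideal.bijective_algebraMap_quotient_residueField P).2

/-- The dimension is at most one and there are few bad maximal ideals. -/
theorem noeth {ℓ N M : ℕ} (hℓ : ℓ.Prime) (hκ : Few κ ℓ N)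
    (hM : ∀ L : IntermediateField K κ, FiniteDimensional K L → ¬ ℓ ^ M ∣ Module.finrank K L) :
    ringKrullDim A ≤ 1 ∧
      {𝔪 : Ideal A | 𝔪.IsMaximal ∧ 𝔪 ≠ ⊥ ∧ ∀ (R : Type) [Field R] (f : A ⧸ 𝔪 →+* R),
        f.Finite → SepExt R ℓ}.encard < N := by
  have hdim : ringKrullDim A ≤ 1 := by
    by_contra h
    obtain ⟨Q, hQ, hQ1⟩ := exists_prime_height h
    have h1 := (infinite_primes Q hQ1).sdiff (Set.finite_singleton (⊥ : Ideal A))
    obtain ⟨P, hP1, hP2⟩ := exists_seq _ N (by rw [h1.encard_eq]; exact le_top)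
    have hp : ∀ i, (P i).IsPrime := fun i => (hP2 i).1.1
    refine bad_ideals A K hℓ hκ hM P hP1 hp (fun i => (hP2 i).2) (fun i => (hP2 i).1.2.1)
      (fun i => sepExtAll_of_not_maximal (P i) (fun hmax => ?_) hℓ.two_le)
    have h2 : P i = Q := hmax.eq_of_le hQ.ne_top (hP2 i).1.2.2
    exact hQ1 (by rw [← h2]; exact (hP2 i).1.2.1)
  refine ⟨hdim, ?_⟩
  by_contra hcon
  rw [not_lt] at hcon
  obtain ⟨P, hP1, hP2⟩ := exists_seq _ N hcon
  have hp : ∀ i, (P i).IsPrime := fun i => (hP2 i).1.isPrime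
  rw [ringKrullDim_le_iff_height_le] at hdim
  refine bad_ideals A K hℓ hκ hM P hP1 hp (fun i => (hP2 i).2.1) (fun i => ?_) (fun i => ?_)
  · have h2 := hdim (hp i)
    exact_mod_cast h2
  · have hm : (P i).IsMaximal := (hP2 i).1
    exact sepExtAll_of_quotient (P i) (fun κ _ f hf => (hP2 i).2.2 κ f hf)

end

end Pool.Agent.R614.PT
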