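import Pool.Agent.R614.PT.Dg
import Pool.Agent.R614.PT.Max

/-!
# The valuation of the algebraic closure of a complete field
-/

set_option autoImplicit false
set_option linter.style.haveILetI false
set_option linter.unusedSectionVars false

namespace Pool.Agent.R614.PT

open Polynomial NNReal Pool.Agent.TH686.NF

variable (C : Type) [NontriviallyNormedField C] [IsUltrametricDist C] [CompleteSpace C]

/-- the valuation of the algebraic closure -/
noncomputable def sv : Valuation (AlgebraicClosure C) ℝ≥0 where
  toFun x := ⟨spectralNorm C (AlgebraicClosure C) x, spectralNorm_nonneg x⟩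
  map_zero' := NNReal.coe_injective spectralNorm_zero
  map_one' := NNReal.coe_injective spectralNorm_one
  map_mul' x y := by
    apply NNReal.coe_injective
    push_cast
    have h := map_mul (spectralMulAlgNorm C (AlgebraicClosure C)) x y
    exact h
  map_add_le_max' x y := by
    rcases le_max_iff.1 (isNonarchimedean_spectralNorm (K := C) x y) with h | h
    · exact le_max_of_le_left (NNReal.coe_le_coe.1 h)
    · exact le_max_of_le_right (NNReal.coe_le_coe.1 h)

variable {C}

theorem sv_coe (x : AlgebraicClosure C) : (sv C x : ℝ) = spectralNorm C (AlgebraicClosure C) x :=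
  rfl

theorem sv_algebraMap (x : C) :
    sv C (algebraMap C (AlgebraicClosure C) x) = NormedField.valuation (K := C) x := by
  apply NNReal.coe_injective
  rw [sv_coe, spectralNorm_extends]
  rfl

theorem sv_pow (x : AlgebraicClosure C) :
    sv C x ^ (minpoly C x).natDegree =
      NormedField.valuation (K := C) ((minpoly C x).coeff 0) := by
  apply NNReal.coe_injective
  rw [NNReal.coe_pow, sv_coe, spectralNorm.spectralNorm_eq_norm_coeff_zero_rpow C
    (AlgebraicClosure C) x, ← Real.rpow_natCast, ← Real.rpow_mul (norm_nonneg _), one_div,
    inv_mul_cancel₀, Real.rpow_one]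
  · rfl
  · exact_mod_cast (minpoly.natDegree_pos (Algebra.IsIntegral.isIntegral x)).ne'

theorem sv_conj {x r : AlgebraicClosure C} (h : minpoly C x = minpoly C r) : sv C x = sv C r := by
  apply NNReal.coe_injective
  rw [sv_coe, sv_coe]
  unfold spectralNorm
  rw [h]

/-- conjugate elements have the same value -/
theorem conj_val (M : IntermediateField C (AlgebraicClosure C)) {x r : AlgebraicClosure C}
    (h : ∀ q : M[X], q.eval₂ (algebraMap M (AlgebraicClosure C)) x = 0 →
      q.eval₂ (algebraMap M (AlgebraicClosure C)) r = 0) (G : M[X]) :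
    sv C (G.eval₂ (algebraMap M (AlgebraicClosure C)) r) =
      sv C (G.eval₂ (algebraMap M (AlgebraicClosure C)) x) := by
  symm
  apply sv_conj
  set y := G.eval₂ (algebraMap M (AlgebraicClosure C)) x with hy
  set z := G.eval₂ (algebraMap M (AlgebraicClosure C)) r with hz
  have h1 : aeval y (minpoly C y) = 0 := minpoly.aeval C y
  have h2 : ∀ w : AlgebraicClosure C,
      (((minpoly C y).map (algebraMap C M)).comp G).eval₂ (algebraMap M (AlgebraicClosure C)) w =
        aeval (G.eval₂ (algebraMap M (AlgebraicClosure C)) w) (minpoly C y) := by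
    intro w
    rw [eval₂_comp, eval₂_map, aeval_def]
    rfl
  have h3 : aeval z (minpoly C y) = 0 := by
    rw [hz, ← h2]
    apply h
    rw [h2, ← hy]
    exact h1
  exact minpoly.eq_of_irreducible_of_monic
    (minpoly.irreducible (Algebra.IsIntegral.isIntegral y)) h3
    (minpoly.monic (Algebra.IsIntegral.isIntegral y))

end Pool.Agent.R614.PT
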