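import Pool.Agent.R614.PT.Noeth2
import Pool.Agent.Y562.NN.FF3

/-!
# Transcendence bases
-/

set_option autoImplicit false
set_option linter.style.haveILetI false
set_option linter.unusedSectionVars false

namespace Pool.Agent.R614.PT

open Polynomial

variable {κ : Type} [Field κ]

/-- a rational function field in one variable -/
theorem frac_poly {k₀ : Type} [Field k₀] [Algebra k₀ κ] (F k : IntermediateField k₀ κ) (t : κ)
    (ht : Transcendental F t)
    (hk : (IntermediateField.adjoin F {t}).restrictScalars k₀ = k) :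
    ∃ _ : Algebra F[X] k, IsFractionRing F[X] k := by
  subst hk
  have hmem : ∀ p : F[X], ((aeval t : F[X] →ₐ[F] κ) : F[X] →+* κ) p ∈
      (IntermediateField.adjoin F {t}).restrictScalars k₀ := by
    intro p
    show aeval t p ∈ IntermediateField.adjoin F {t}
    rw [IntermediateField.mem_adjoin_simple_iff]
    exact ⟨p, 1, by simp⟩
  letI : Algebra F[X] ((IntermediateField.adjoin F {t}).restrictScalars k₀) :=
    (RingHom.codRestrict ((aeval t : F[X] →ₐ[F] κ) : F[X] →+* κ) _ hmem).toAlgebra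
  have hval : ∀ p : F[X], ((algebraMap F[X]
      ((IntermediateField.adjoin F {t}).restrictScalars k₀) p :
      (IntermediateField.adjoin F {t}).restrictScalars k₀) : κ) = aeval t p := fun p => rfl
  have hf : FaithfulSMul F[X] ((IntermediateField.adjoin F {t}).restrictScalars k₀) := by
    rw [faithfulSMul_iff_algebraMap_injective]
    intro p q hpq
    apply transcendental_iff_injective.1 ht
    rw [← hval, ← hval, hpq]
  refine ⟨inferInstance, IsFractionRing.of_field _ _ fun z => ?_⟩
  have hz : (z : κ) ∈ IntermediateField.adjoin F {t} := z.2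
  obtain ⟨p, q, hpq⟩ := (IntermediateField.mem_adjoin_simple_iff F _).1 hz
  refine ⟨p, q, Subtype.ext ?_⟩
  rw [hpq]
  rfl

section

variable {k₀ : Type} [Field k₀] [Algebra k₀ κ] {ι : Type} {x : ι → κ}

theorem adjoin_eq (i₀ : ι) :
    (IntermediateField.adjoin (IntermediateField.adjoin k₀ (x '' {i₀}ᶜ)) {x i₀}).restrictScalars k₀ =
      IntermediateField.adjoin k₀ (Set.range x) := by
  rw [IntermediateField.adjoin_adjoin_left]
  congr 1
  rw [← Set.image_singleton, ← Set.image_union, Set.compl_union_self, Set.image_univ]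

theorem transcendental_aux (hx : AlgebraicIndependent k₀ x) (i₀ : ι) :
    Transcendental (IntermediateField.adjoin k₀ (x '' {i₀}ᶜ)) (x i₀) := by
  rw [IntermediateField.transcendental_adjoin_iff]
  exact hx.transcendental_adjoin (by simp)

/-- A purely transcendental extension of positive transcendence degree has only finite extensions
with separable extensions of all degrees. -/
theorem sepExtAll_adjoin (hx : AlgebraicIndependent k₀ x) (i₀ : ι) {d : ℕ} (hd : 2 ≤ d) :
    SepExtAll (IntermediateField.adjoin k₀ (Set.range x)) d := by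
  obtain ⟨_, h⟩ := frac_poly _ _ (x i₀) (transcendental_aux hx i₀) (adjoin_eq i₀)
  exact sepExtAll_of_frac (IntermediateField.adjoin k₀ (x '' {i₀}ᶜ))[X]
    (IntermediateField.adjoin k₀ (Set.range x)) (Polynomial.not_isField _) hd

theorem no_infinite (A K : Type) [CommRing A] [IsDomain A] [IsNoetherianRing A] [Field K]
    [Algebra A K] [IsFractionRing A K] [Algebra K κ] [Algebra.IsAlgebraic K κ]
    {ℓ N M : ℕ} (hℓ : ℓ.Prime) (hκ : Few κ ℓ N)
    (hM : ∀ L : IntermediateField K κ, FiniteDimensional K L → ¬ ℓ ^ M ∣ Module.finrank K L)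
    (hinf : {𝔪 : Ideal A | 𝔪.IsMaximal ∧ 𝔪 ≠ ⊥ ∧ ∀ (R : Type) [Field R] (f : A ⧸ 𝔪 →+* R),
        f.Finite → SepExt R ℓ}.Infinite) : False := by
  have h := (noeth A K hℓ hκ hM).2
  rw [hinf.encard_eq] at h
  exact absurd h (by simp)

/-- the case of a rational function field over `F` -/
theorem trans_step (hx : IsTranscendenceBasis k₀ x) (i₀ : ι) {ℓ N M : ℕ} (hℓ : ℓ.Prime)
    (hκ : Few κ ℓ N)
    (hM : ∀ L : IntermediateField (IntermediateField.adjoin k₀ (Set.range x)) κ,
      FiniteDimensional (IntermediateField.adjoin k₀ (Set.range x)) L →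
        ¬ ℓ ^ M ∣ Module.finrank (IntermediateField.adjoin k₀ (Set.range x)) L)
    (hF : SepExtAll (IntermediateField.adjoin k₀ (x '' {i₀}ᶜ)) ℓ) : False := by
  obtain ⟨_, h⟩ := frac_poly _ _ (x i₀) (transcendental_aux hx.1 i₀) (adjoin_eq i₀)
  have := hx.isAlgebraic_field
  refine no_infinite (IntermediateField.adjoin k₀ (x '' {i₀}ᶜ))[X]
    (IntermediateField.adjoin k₀ (Set.range x)) hℓ hκ hM ?_
  refine (Pool.Agent.Y562.NN.infinite_maximal (IntermediateField.adjoin k₀ (x '' {i₀}ᶜ))).mono ?_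
  intro P hP
  have hP' : P.IsMaximal := hP
  refine ⟨hP, Ring.ne_bot_of_isMaximal_of_not_isField hP' (Polynomial.not_isField _), ?_⟩
  intro R _ f hf
  letI : Field ((IntermediateField.adjoin k₀ (x '' {i₀}ᶜ))[X] ⧸ P) := Ideal.Quotient.field P
  have h1 : Algebra.FiniteType (IntermediateField.adjoin k₀ (x '' {i₀}ᶜ))
      ((IntermediateField.adjoin k₀ (x '' {i₀}ᶜ))[X] ⧸ P) := inferInstance
  have h2 : Module.Finite (IntermediateField.adjoin k₀ (x '' {i₀}ᶜ))
      ((IntermediateField.adjoin k₀ (x '' {i₀}ᶜ))[X] ⧸ P) :=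
    finite_of_finite_type_of_isJacobsonRing _ _
  have h3 : (algebraMap (IntermediateField.adjoin k₀ (x '' {i₀}ᶜ))
      ((IntermediateField.adjoin k₀ (x '' {i₀}ᶜ))[X] ⧸ P)).Finite :=
    RingHom.finite_algebraMap.2 h2
  exact hF R (f.comp (algebraMap (IntermediateField.adjoin k₀ (x '' {i₀}ᶜ))
      ((IntermediateField.adjoin k₀ (x '' {i₀}ᶜ))[X] ⧸ P))) (hf.comp h3)

/-- The theorem on transcendence bases over an arbitrary subfield. -/
theorem trans_basis (hx : IsTranscendenceBasis k₀ x) [Nonempty ι] {ℓ N M : ℕ} (hℓ : ℓ.Prime)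
    (hκ : Few κ ℓ N)
    (hM : ∀ L : IntermediateField (IntermediateField.adjoin k₀ (Set.range x)) κ,
      FiniteDimensional (IntermediateField.adjoin k₀ (Set.range x)) L →
        ¬ ℓ ^ M ∣ Module.finrank (IntermediateField.adjoin k₀ (Set.range x)) L) :
    Subsingleton ι ∧ ¬ SepExtAll k₀ ℓ := by
  refine ⟨⟨fun i j => ?_⟩, fun h => ?_⟩
  · by_contra hij
    refine trans_step hx i hℓ hκ hM ?_
    have h1 : AlgebraicIndependent k₀ (fun a : ({i}ᶜ : Set ι) => x a) :=
      hx.1.comp _ Subtype.val_injective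
    have h2 := sepExtAll_adjoin h1 ⟨j, fun h => hij h.symm⟩ hℓ.two_le
    have h3 : Set.range (fun a : ({i}ᶜ : Set ι) => x a) = x '' {i}ᶜ :=
      (Set.image_eq_range _ _).symm
    rw [h3] at h2
    exact h2
  · obtain ⟨i₀⟩ := (inferInstance : Nonempty ι)
    by_cases hne : ∃ j, j ≠ i₀
    · obtain ⟨j, hj⟩ := hne
      refine trans_step hx i₀ hℓ hκ hM ?_
      have h1 : AlgebraicIndependent k₀ (fun a : ({i₀}ᶜ : Set ι) => x a) :=
        hx.1.comp _ Subtype.val_injective
      have h2 := sepExtAll_adjoin h1 ⟨j, hj⟩ hℓ.two_le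
      have h3 : Set.range (fun a : ({i₀}ᶜ : Set ι) => x a) = x '' {i₀}ᶜ :=
        (Set.image_eq_range _ _).symm
      rw [h3] at h2
      exact h2
    · push Not at hne
      refine trans_step hx i₀ hℓ hκ hM ?_
      have h1 : x '' {i₀}ᶜ = ∅ := by
        rw [Set.image_eq_empty, Set.eq_empty_iff_forall_notMem]
        intro j hj
        exact hj (hne j)
      rw [h1, IntermediateField.adjoin_empty]
      intro R _ f hf
      refine h R (f.comp (algebraMap k₀ (⊥ : IntermediateField k₀ κ))) (hf.comp ?_)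
      refine RingHom.Finite.of_surjective _ fun z => ?_
      obtain ⟨a, ha⟩ := IntermediateField.mem_bot.1 z.2
      exact ⟨a, Subtype.ext ha⟩

end

end Pool.Agent.R614.PT
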