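import Pool.Agent.R614.PT.Trans

/-!
# Characteristic zero
-/

set_option autoImplicit false
set_option linter.style.haveILetI false
set_option linter.unusedSectionVars false

namespace Pool.Agent.R614.PT

open Polynomial

theorem infinite_maximal_int {ℓ : ℕ} (hℓ : ℓ.Prime) :
    {𝔪 : Ideal ℤ | 𝔪.IsMaximal ∧ 𝔪 ≠ ⊥ ∧ ∀ (R : Type) [Field R] (f : ℤ ⧸ 𝔪 →+* R),
        f.Finite → SepExt R ℓ}.Infinite := by
  have : Infinite {p : ℕ // p.Prime} := Nat.infinite_setOfPred_prime.to_subtype
  refine Set.infinite_of_injective_forall_mem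
    (f := fun p : {p : ℕ // p.Prime} => Ideal.span {((p : ℕ) : ℤ)}) ?_ ?_
  · intro p q hpq
    have h1 : Ideal.span {((p : ℕ) : ℤ)} = Ideal.span {((q : ℕ) : ℤ)} := hpq
    rw [Ideal.span_singleton_eq_span_singleton, Int.associated_iff_natAbs] at h1
    exact Subtype.ext (by simpa using h1)
  · intro p
    have hp : Fact (p : ℕ).Prime := ⟨p.2⟩
    have hmax : (Ideal.span {((p : ℕ) : ℤ)}).IsMaximal := Int.ideal_span_isMaximal_of_prime p
    refine ⟨hmax, ?_, ?_⟩
    · rw [Ne, Ideal.span_singleton_eq_bot]
      exact_mod_cast p.2.ne_zero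
    · intro R _ f hf
      have hfin : Finite (ℤ ⧸ Ideal.span {((p : ℕ) : ℤ)}) :=
        Finite.of_equiv (ZMod p) (Int.quotientSpanNatEquivZMod p).symm.toEquiv
      letI := f.toAlgebra
      have h1 : Module.Finite (ℤ ⧸ Ideal.span {((p : ℕ) : ℤ)}) R := hf
      have h2 : Finite R := Module.finite_of_finite (ℤ ⧸ Ideal.span {((p : ℕ) : ℤ)})
      exact sepExtAll_of_finite R hℓ R (RingHom.id R) (RingHom.Finite.id R)

variable {κ : Type} [Field κ]

/-- The theorem on transcendence bases in characteristic zero. -/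
theorem trans_zero [CharZero κ] {ι : Type} {x : ι → κ} (hx : IsTranscendenceBasis ℚ x)
    {ℓ N M : ℕ} (hℓ : ℓ.Prime) (hκ : Few κ ℓ N)
    (hM : ∀ L : IntermediateField (IntermediateField.adjoin ℚ (Set.range x)) κ,
      FiniteDimensional (IntermediateField.adjoin ℚ (Set.range x)) L →
        ¬ ℓ ^ M ∣ Module.finrank (IntermediateField.adjoin ℚ (Set.range x)) L) : False := by
  rcases isEmpty_or_nonempty ι with h | h
  · have hr : IntermediateField.adjoin ℚ (Set.range x) = ⊥ := by
      rw [Set.range_eq_empty, IntermediateField.adjoin_empty]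
    have := hx.isAlgebraic_field
    have hfr : IsFractionRing ℤ (IntermediateField.adjoin ℚ (Set.range x)) := by
      have hfs : FaithfulSMul ℤ (IntermediateField.adjoin ℚ (Set.range x)) := by
        rw [faithfulSMul_iff_algebraMap_injective]
        intro a b hab
        rw [eq_intCast, eq_intCast] at hab
        exact Int.cast_injective hab
      refine IsFractionRing.of_field _ _ fun z => ?_
      have hz : (z : κ) ∈ (⊥ : IntermediateField ℚ κ) := by
        rw [← hr]
        exact z.2
      obtain ⟨q, hq⟩ := IntermediateField.mem_bot.1 hz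
      refine ⟨q.num, q.den, Subtype.ext ?_⟩
      rw [← hq]
      have h1 : ((algebraMap ℤ (IntermediateField.adjoin ℚ (Set.range x)) q.num /
          algebraMap ℤ (IntermediateField.adjoin ℚ (Set.range x)) q.den :
          IntermediateField.adjoin ℚ (Set.range x)) : κ) = (q.num : κ) / ((q.den : ℤ) : κ) := by
        simp
      rw [h1, eq_ratCast (algebraMap ℚ κ) q]
      conv_lhs => rw [← Rat.num_div_den q]
      push_cast
      rfl
    exact no_infinite ℤ (IntermediateField.adjoin ℚ (Set.range x)) hℓ hκ hM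
      (infinite_maximal_int hℓ)
  · exact (trans_basis hx hℓ hκ hM).2 (sepExtAll_of_frac ℤ ℚ Int.not_isField hℓ.two_le)

end Pool.Agent.R614.PT
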